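import Mathlib
import Pool.Agent.H58B.Low

set_option autoImplicit false

/-!
# The tower `t_{i+1}^2 = t_i + 2` at the places over two
-/

namespace Pool.Agent.H58B

open IntermediateField Polynomial Module
open Pool.Agent.H58P (Qb ht qb_isIntegral alg_isIntegral)

lemma mem_adjoin_iff (M : IntermediateField ℚ Qb) (α x : Qb) :
    x ∈ IntermediateField.adjoin M {α} ↔ x ∈ M ⊔ IntermediateField.adjoin ℚ {α} := by
  rw [← IntermediateField.restrictScalars_adjoin_eq_sup, IntermediateField.mem_restrictScalars]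

/-- elements of a quadratic extension -/
lemma quad_mem (K : IntermediateField ℚ Qb) (t : Qb) (ht2 : t ^ 2 ∈ K) (y : Qb)
    (hy : y ∈ K ⊔ IntermediateField.adjoin ℚ {t}) :
    ∃ α ∈ K, ∃ β ∈ K, y = α + β * t := by
  rw [← mem_adjoin_iff] at hy
  have halg : IsAlgebraic K t := (alg_isIntegral K t).isAlgebraic
  have h1 : y ∈ (IntermediateField.adjoin K {t}).toSubalgebra := hy
  rw [adjoin_simple_toSubalgebra_of_isAlgebraic halg, Algebra.adjoin_singleton_eq_range_aeval] at h1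
  obtain ⟨q, hq⟩ := h1
  have hq' : aeval t q = y := hq
  set c : K := ⟨t ^ 2, ht2⟩ with hc
  have hmon : (X ^ 2 - C c).Monic := monic_X_pow_sub_C _ (by norm_num)
  have hdeg : (X ^ 2 - C c).natDegree = 2 := natDegree_X_pow_sub_C
  have hne : (X ^ 2 - C c) ≠ 1 := by
    intro h
    rw [h, natDegree_one] at hdeg
    omega
  have hroot : aeval t (X ^ 2 - C c) = 0 := by
    rw [map_sub, map_pow, aeval_X, aeval_C]
    show t ^ 2 - t ^ 2 = 0
    exact sub_self _
  have hlt := natDegree_modByMonic_lt q hmon hne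
  rw [hdeg] at hlt
  rw [← aeval_modByMonic_eq_self_of_root hroot, aeval_eq_sum_range' hlt, Finset.sum_range_succ,
    Finset.sum_range_one, Algebra.smul_def, Algebra.smul_def, pow_zero, mul_one, pow_one] at hq'
  exact ⟨_, ((q %ₘ (X ^ 2 - C c)).coeff 0).2, _, ((q %ₘ (X ^ 2 - C c)).coeff 1).2, hq'.symm⟩

/-- the conjugation of a quadratic extension -/
lemma exists_neg (K : IntermediateField ℚ Qb) (t : Qb) (ht2 : t ^ 2 ∈ K) (ht : t ∉ K) :
    ∃ σ : Qb ≃ₐ[ℚ] Qb, σ t = -t ∧ ∀ x ∈ K, σ x = x := by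
  have hcl : IsAlgClosure K Qb := ⟨inferInstance, inferInstance⟩
  have hn : Normal K Qb := IsAlgClosure.normal K Qb
  set c : K := ⟨t ^ 2, ht2⟩ with hc
  have hmon : (X ^ 2 - C c).Monic := monic_X_pow_sub_C _ (by norm_num)
  have hirr : Irreducible (X ^ 2 - C c) := by
    apply X_pow_sub_C_irreducible_of_prime Nat.prime_two
    intro b hb
    have hb' : (b : Qb) ^ 2 = t ^ 2 := congrArg (fun z : K => (z : Qb)) hb
    rcases sq_eq_sq_iff_eq_or_eq_neg.mp hb' with h | h
    · exact ht (h ▸ b.2)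
    · have : t = -(b : Qb) := by rw [h, neg_neg]
      exact ht (this ▸ neg_mem b.2)
  have hroot : ∀ s : Qb, s ^ 2 = t ^ 2 → aeval s (X ^ 2 - C c) = 0 := by
    intro s hs
    rw [map_sub, map_pow, aeval_X, aeval_C]
    show s ^ 2 - t ^ 2 = 0
    rw [hs, sub_self]
  have h1 : minpoly K t = X ^ 2 - C c :=
    (minpoly.eq_of_irreducible_of_monic hirr (hroot t rfl) hmon).symm
  have h2 : minpoly K (-t) = X ^ 2 - C c :=
    (minpoly.eq_of_irreducible_of_monic hirr (hroot (-t) (neg_sq t)) hmon).symm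
  obtain ⟨σ, hσ⟩ := (Normal.minpoly_eq_iff_mem_orbit Qb).mp (h2.trans h1.symm)
  exact ⟨σ.restrictScalars ℚ, hσ, fun x hx => σ.commutes ⟨x, hx⟩⟩

/-- a polynomial inequality for valuations -/
lemma val_ne {Γ : Type*} [LinearOrderedCommGroupWithZero Γ] (w : Valuation Qb Γ) (p q c : Qb)
    (h2 : w 2 < w c) (hc1 : w c < 1) (hne : w p ^ 2 ≠ w q ^ 2 * w c) :
    p ^ 2 + p * q * c + q ^ 2 * c ≠ 0 ∧ p ^ 2 + 4 * p * q + q ^ 2 * c ≠ 0 := by
  have hc0 : 0 < w c := lt_of_le_of_lt zero_le h2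
  have h21 : w 2 < 1 := h2.trans hc1
  set m := max (w p ^ 2) (w q ^ 2 * w c) with hm
  have hmax : w (p ^ 2 + q ^ 2 * c) = m := by
    rw [Valuation.map_add_of_distinct_val]
    · rw [map_pow, map_mul, map_pow]
    · rw [map_pow, map_mul, map_pow]; exact hne
  have hm0 : 0 < m := by
    by_contra hcon
    rw [not_lt, nonpos_iff_eq_zero] at hcon
    have e1 : w p ^ 2 ≤ 0 := hcon ▸ le_max_left _ _
    have e2 : w q ^ 2 * w c ≤ 0 := hcon ▸ le_max_right _ _
    rw [nonpos_iff_eq_zero] at e1 e2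
    exact hne (e1.trans e2.symm)
  have hP : w p ^ 2 ≤ m := le_max_left _ _
  have hQ : w q ^ 2 * w c ≤ m := le_max_right _ _
  constructor
  · intro h0
    have h1 : w (p * q * c) = m := by
      rw [← hmax, ← Valuation.map_neg w (p * q * c)]
      congr 1
      linear_combination -h0
    have h3 : m ^ 2 < m ^ 2 := by
      calc m ^ 2 = (w p ^ 2) * (w q ^ 2 * w c) * w c := by
            rw [← h1, map_mul, map_mul]
            simp only [sq]
            ac_rfl
        _ ≤ m * m * w c := by gcongr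
        _ < m * m * 1 := mul_lt_mul_of_pos_left hc1 (mul_pos hm0 hm0)
        _ = m ^ 2 := by rw [mul_one, sq]
    exact lt_irrefl _ h3
  · intro h0
    have h1 : w (4 * p * q) = m := by
      rw [← hmax, ← Valuation.map_neg w (4 * p * q)]
      congr 1
      linear_combination -h0
    have h4 : w (4 : Qb) = w 2 * w 2 := by rw [← map_mul]; norm_num
    have h5 : w 2 ^ 4 < w c := by
      calc w 2 ^ 4 = w 2 ^ 3 * w 2 := pow_succ _ _
        _ ≤ 1 * w 2 := by gcongr; exact pow_le_one' h21.le 3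
        _ < w c := by rw [one_mul]; exact h2
    have h3 : m ^ 2 * w c < m ^ 2 * w c := by
      calc m ^ 2 * w c = w 2 ^ 4 * ((w p ^ 2) * (w q ^ 2 * w c)) := by
            rw [← h1, map_mul, map_mul, h4]
            simp only [pow_succ, pow_zero, one_mul]
            ac_rfl
        _ ≤ w 2 ^ 4 * (m * m) := by gcongr
        _ < w c * (m * m) := mul_lt_mul_of_pos_right h5 (mul_pos hm0 hm0)
        _ = m ^ 2 * w c := by rw [sq, mul_comm]
    exact lt_irrefl _ h3

section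

variable (K₀ : IntermediateField ℚ Qb) (t : ℕ → Qb) (htt : ∀ i, t (i + 1) ^ 2 = t i + 2)

/-- the fields of the tower -/
noncomputable def Kf (i : ℕ) : IntermediateField ℚ Qb := K₀ ⊔ IntermediateField.adjoin ℚ {t i}

lemma t_mem (i : ℕ) : t i ∈ Kf K₀ t i :=
  (le_sup_right : IntermediateField.adjoin ℚ {t i} ≤ _) (IntermediateField.mem_adjoin_simple_self ℚ _)

include htt in
lemma Kf_succ (i : ℕ) : Kf K₀ t (i + 1) = Kf K₀ t i ⊔ IntermediateField.adjoin ℚ {t (i + 1)} := by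
  apply le_antisymm
  · exact sup_le ((le_sup_left : K₀ ≤ Kf K₀ t i).trans le_sup_left) le_sup_right
  · refine sup_le (sup_le le_sup_left ?_) le_sup_right
    rw [IntermediateField.adjoin_simple_le_iff]
    have h1 : t i = t (i + 1) ^ 2 - 2 := by rw [htt]; ring
    rw [h1]
    exact sub_mem (pow_mem (t_mem K₀ t (i + 1)) 2) (IntermediateField.natCast_mem _ 2)

include htt in
lemma sq_mem (i : ℕ) : t (i + 1) ^ 2 ∈ Kf K₀ t i := by
  rw [htt]
  exact add_mem (t_mem K₀ t i) (IntermediateField.natCast_mem _ 2)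

include htt in
lemma Kf_mono : Monotone (Kf K₀ t) := monotone_nat_of_le_succ fun i => by
  rw [Kf_succ K₀ t htt]; exact le_sup_left

include htt in
lemma tower_val {Γ : Type*} [LinearOrderedCommGroupWithZero Γ] (w : Valuation Qb Γ)
    (h2 : w 2 < w (t 0)) (h1 : w (t 0) < 1) (hodd : ∀ γ ∈ Kf K₀ t 0, w γ ^ 2 ≠ w (t 0)) (i : ℕ) :
    w 2 < w (t i) ∧ w (t i) < 1 ∧ (∀ γ ∈ Kf K₀ t i, w γ ^ 2 ≠ w (t i)) ∧
      w (t (i + 1)) ^ 2 = w (t i) ∧ ∀ γ ∈ Kf K₀ t i, w γ ≠ w (t (i + 1)) := by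
  have key : ∀ i, (w 2 < w (t i) ∧ w (t i) < 1 ∧ (∀ γ ∈ Kf K₀ t i, w γ ^ 2 ≠ w (t i))) →
      w (t (i + 1)) ^ 2 = w (t i) ∧ ∀ γ ∈ Kf K₀ t i, w γ ≠ w (t (i + 1)) := by
    rintro i ⟨a1, a2, a3⟩
    have e : w (t (i + 1)) ^ 2 = w (t i) := by
      rw [← map_pow, htt]
      exact Valuation.map_add_eq_of_lt_left _ a1
    refine ⟨e, fun γ hγ h => ?_⟩
    apply a3 γ hγ
    rw [h, e]
  induction i with
  | zero => exact ⟨h2, h1, hodd, key 0 ⟨h2, h1, hodd⟩⟩
  | succ i ih =>
    obtain ⟨a1, a2, a3, a4, a5⟩ := ih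
    have b1 : w 2 < w (t (i + 1)) := by
      by_contra hcon
      rw [not_lt] at hcon
      have h21 : w 2 < 1 := a1.trans a2
      have : w (t i) ≤ w 2 := by
        calc w (t i) = w (t (i + 1)) * w (t (i + 1)) := by rw [← a4, sq]
          _ ≤ w 2 * 1 := mul_le_mul' hcon (hcon.trans h21.le)
          _ = w 2 := mul_one _
      exact absurd a1 (not_lt.mpr this)
    have b2 : w (t (i + 1)) < 1 := by
      by_contra hcon
      rw [not_lt] at hcon
      have : 1 ≤ w (t i) := by rw [← a4]; exact one_le_pow₀ hcon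
      exact absurd a2 (not_lt.mpr this)
    have b3 : ∀ γ ∈ Kf K₀ t (i + 1), w γ ^ 2 ≠ w (t (i + 1)) := by
      intro γ hγ hcon
      rw [Kf_succ K₀ t htt] at hγ
      obtain ⟨α, hα, β, hβ, rfl⟩ := quad_mem _ _ (sq_mem K₀ t htt i) γ hγ
      have hA : w (α ^ 2) ≠ w (t (i + 1)) := a5 _ (pow_mem hα 2)
      have hB : w ((β * t (i + 1)) ^ 2) ≠ w (t (i + 1)) := by
        apply a5
        rw [mul_pow]
        exact mul_mem (pow_mem hβ 2) (sq_mem K₀ t htt i)
      by_cases hβ0 : β = 0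
      · rw [hβ0, zero_mul, add_zero, ← map_pow] at hcon
        exact hA hcon
      · have hdist : w α ≠ w (β * t (i + 1)) := by
          intro h
          apply a5 (α / β) (div_mem hα hβ)
          have hb : w β ≠ 0 := (Valuation.ne_zero_iff _).mpr hβ0
          rw [map_div₀, h, map_mul, mul_comm, mul_div_assoc, div_self hb, mul_one]
        rw [Valuation.map_add_of_distinct_val _ hdist] at hcon
        rcases max_choice (w α) (w (β * t (i + 1))) with h | h
        · rw [h, ← map_pow] at hcon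
          exact hA hcon
        · rw [h, ← map_pow] at hcon
          exact hB hcon
    exact ⟨b1, b2, b3, key (i + 1) ⟨b1, b2, b3⟩⟩

end

/-- there is a place over two -/
lemma exists_over_two : ∃ V : ValuationSubring Qb, V.valuation (2 : Qb) < 1 := by
  have h1 : (2 : Qb)⁻¹ ∉ (integralClosure ℤ Qb).toSubring := by
    intro h
    have h2 : IsIntegral ℤ ((2 : Qb)⁻¹) := h
    have h5 : IsIntegral ℤ ((2 : ℚ)⁻¹) := by
      rw [← isIntegral_algebraMap_iff (algebraMap ℚ Qb).injective]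
      simpa using h2
    obtain ⟨y, hy⟩ := IsIntegrallyClosed.isIntegral_iff.mp h5
    have h6 : (y : ℚ) * 2 = 1 := by
      have : (y : ℚ) = (2 : ℚ)⁻¹ := hy
      rw [this, inv_mul_cancel₀ (by norm_num)]
    have h7 : y * 2 = 1 := by exact_mod_cast h6
    omega
  obtain ⟨V, -, hV⟩ := Subring.exists_le_valuationSubring_of_isIntegrallyClosedIn h1
  refine ⟨V, ?_⟩
  rw [← ValuationSubring.valuation_le_one_iff, not_le, map_inv₀] at hV
  exact (one_lt_inv₀ (zero_lt_iff.mpr ((Valuation.ne_zero_iff _).mpr (by norm_num)))).mp hV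

/-- heights in the upper layers of the tower -/
theorem layer_height (K₀ : IntermediateField ℚ Qb) (t : ℕ → Qb)
    (htt : ∀ i, t (i + 1) ^ 2 = t i + 2)
    (hV : ∀ V : ValuationSubring Qb, V.valuation (2 : Qb) < 1 →
      V.valuation 2 < V.valuation (t 0) ∧ V.valuation (t 0) < 1 ∧
      ∀ γ ∈ Kf K₀ t 0, V.valuation γ ^ 2 ≠ V.valuation (t 0))
    (i : ℕ) (y : Qb) (hy : y ∈ Kf K₀ t (i + 2)) (hy' : y ∉ Kf K₀ t (i + 1)) :
    Real.log 2 / 8 ≤ ht y := by
  have hT : ∀ (V : ValuationSubring Qb), V.valuation (2 : Qb) < 1 → ∀ i,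
      V.valuation 2 < V.valuation (t i) ∧ V.valuation (t i) < 1 ∧
      (∀ γ ∈ Kf K₀ t i, V.valuation γ ^ 2 ≠ V.valuation (t i)) ∧
      V.valuation (t (i + 1)) ^ 2 = V.valuation (t i) ∧
      ∀ γ ∈ Kf K₀ t i, V.valuation γ ≠ V.valuation (t (i + 1)) := fun V h2 i =>
    tower_val K₀ t htt V.valuation (hV V h2).1 (hV V h2).2.1 (hV V h2).2.2 i
  obtain ⟨V₀, hV₀⟩ := exists_over_two
  have htn : ∀ i, t (i + 1) ∉ Kf K₀ t i := fun i h => (hT V₀ hV₀ i).2.2.2.2 _ h rfl
  have ht0 : ∀ i, t i ≠ 0 := by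
    intro i h
    have := (hT V₀ hV₀ i).1
    rw [h, map_zero] at this
    exact absurd this (not_lt.mpr zero_le)
  -- the quadratic step
  have hstep : ∀ i, ∀ α ∈ Kf K₀ t i, ∀ β ∈ Kf K₀ t i, α ≠ 0 → β ≠ 0 →
      Real.log 2 / 4 ≤ ht (α + β * t (i + 1)) := by
    intro i α hα β hβ hα0 hβ0
    obtain ⟨σ, hσ, hσK⟩ := exists_neg (Kf K₀ t i) (t (i + 1)) (sq_mem K₀ t htt i) (htn i)
    apply ht_quad α β _ hα0 (mul_ne_zero hβ0 (ht0 _))
    · rw [← ht_conj σ (α + β * t (i + 1)), map_add, map_mul, hσ, hσK α hα, hσK β hβ]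
      congr 1
      ring_nf
    · intro V h2 h
      have hb : V.valuation β ≠ 0 := (Valuation.ne_zero_iff _).mpr hβ0
      apply (hT V h2 i).2.2.2.2 (α / β) (div_mem hα hβ)
      rw [map_div₀, h, map_mul, mul_comm, mul_div_assoc, div_self hb, mul_one]
  have hlog : 0 < Real.log 2 := Real.log_pos (by norm_num)
  rw [show i + 2 = (i + 1) + 1 from rfl, Kf_succ K₀ t htt] at hy
  obtain ⟨α, hα, β, hβ, rfl⟩ := quad_mem _ _ (sq_mem K₀ t htt (i + 1)) y hy
  have hβ0 : β ≠ 0 := by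
    rintro rfl
    apply hy'
    rw [zero_mul, add_zero]
    exact hα
  by_cases hα0 : α = 0
  · rw [hα0, zero_add]
    rw [Kf_succ K₀ t htt] at hβ
    obtain ⟨p, hp, q, hq, rfl⟩ := quad_mem _ _ (sq_mem K₀ t htt i) β hβ
    set s := t (i + 1) with hs
    set c := t i + 2 with hc
    have hs2 : s ^ 2 = c := htt i
    have ht2 : t (i + 2) ^ 2 = s + 2 := htt (i + 1)
    have hcK : c ∈ Kf K₀ t i := by rw [← hs2]; exact sq_mem K₀ t htt i
    obtain ⟨b1, b2, b3, b4, -⟩ := hT V₀ hV₀ i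
    have hwc : V₀.valuation c = V₀.valuation (t i) :=
      Valuation.map_add_eq_of_lt_left _ b1
    have hpq : V₀.valuation p ^ 2 ≠ V₀.valuation q ^ 2 * V₀.valuation c := by
      intro h
      by_cases hq0 : q = 0
      · rw [hq0, map_zero, zero_pow (by norm_num), zero_mul] at h
        have hp0 : p = 0 := by
          have := pow_eq_zero_iff (two_ne_zero) |>.mp h
          exact (Valuation.zero_iff _).mp this
        apply hβ0
        rw [hp0, hq0, zero_mul, add_zero]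
      · apply b3 (p / q) (div_mem hp hq)
        have hb : V₀.valuation q ^ 2 ≠ 0 := pow_ne_zero 2 ((Valuation.ne_zero_iff _).mpr hq0)
        rw [map_div₀, div_pow, h, mul_comm, mul_div_assoc, div_self hb, mul_one, hwc]
    obtain ⟨c1, c2⟩ := val_ne V₀.valuation p q c (by rw [hwc]; exact b1) (by rw [hwc]; exact b2) hpq
    have hsq : ((p + q * s) * t (i + 2)) ^ 2 =
        2 * (p ^ 2 + p * q * c + q ^ 2 * c) + (p ^ 2 + 4 * p * q + q ^ 2 * c) * s := by
      rw [mul_pow, ht2, ← hs2]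
      ring
    have h2K : (2 : Qb) ∈ Kf K₀ t i := IntermediateField.natCast_mem _ 2
    have h4K : (4 : Qb) ∈ Kf K₀ t i := IntermediateField.natCast_mem _ 4
    have h1 := hstep i (2 * (p ^ 2 + p * q * c + q ^ 2 * c))
      (mul_mem h2K (add_mem (add_mem (pow_mem hp 2) (mul_mem (mul_mem hp hq) hcK))
        (mul_mem (pow_mem hq 2) hcK)))
      (p ^ 2 + 4 * p * q + q ^ 2 * c)
      (add_mem (add_mem (pow_mem hp 2) (mul_mem (mul_mem h4K hp) hq)) (mul_mem (pow_mem hq 2) hcK))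
      (mul_ne_zero (by norm_num) c1) c2
    rw [← hs, ← hsq, ht_pow] at h1
    push_cast at h1
    show Real.log 2 / 8 ≤ ht ((p + q * s) * t (i + 1 + 1))
    have e : t (i + 1 + 1) = t (i + 2) := rfl
    rw [e]
    linarith
  · have := hstep (i + 1) α hα β hβ hα0 hβ0
    have e : t (i + 2) = t (i + 1 + 1) := rfl
    linarith

end Pool.Agent.H58B
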