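import Mathlib
import Pool.Agent.H58B.Val

set_option autoImplicit false

/-!
# Uniformizers at two and their conjugates
-/

namespace Pool.Agent.H58B

open IntermediateField Polynomial Module NumberField UniqueFactorizationMonoid IsDedekindDomain
open Pool.Agent.H58P (Qb ht qb_isIntegral alg_isIntegral)

/-- a number is odd at a place -/
def OddAt (N : IntermediateField ℚ Qb) (V : ValuationSubring Qb) (a : Qb) : Prop :=
  V.valuation 2 < V.valuation a ∧ V.valuation a < 1 ∧ ∀ γ ∈ N, V.valuation γ ^ 2 ≠ V.valuation a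

/-- an element with odd valuation at all primes over two -/
lemma exists_uniformizer_ideal (R : Type*) [CommRing R] [IsDedekindDomain R]
    (a : R) (ha : a ≠ 0) :
    ∃ y : R, ∀ P : Ideal R, P.IsPrime → a ∈ P → y ∈ P ∧ y ∉ P ^ 2 := by
  classical
  have hbot : Ideal.span {a} ≠ 0 := by
    rwa [Ne, Ideal.zero_eq_bot, Ideal.span_singleton_eq_bot]
  set s := (normalizedFactors (Ideal.span {a})).toFinset with hs
  have hprime : ∀ P ∈ s, Prime P := by
    intro P hP
    rw [hs, Multiset.mem_toFinset] at hP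
    exact prime_of_normalized_factor P hP
  have hx : ∀ P : s, ∃ x : R, x ∈ (P : Ideal R) ∧ x ∉ (P : Ideal R) ^ 2 := by
    rintro ⟨P, hP⟩
    have h1 := hprime P hP
    have h2 : P ≠ ⊥ := h1.ne_zero
    have h3 : P ≠ ⊤ := (Ideal.isPrime_of_prime h1).ne_top
    obtain ⟨x, hx1, hx2⟩ := P.exists_mem_pow_notMem_pow_succ h2 h3 1
    rw [pow_one] at hx1
    exact ⟨x, hx1, hx2⟩
  choose x hx1 hx2 using hx
  obtain ⟨y, hy⟩ := exists_forall_sub_mem_ideal (s := s) (fun P => P) (fun _ => 2) hprime
    (fun P _ Q _ h => h) x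
  refine ⟨y, fun P hP haP => ?_⟩
  have hPs : P ∈ s := by
    rw [hs, Multiset.mem_toFinset, Ideal.mem_normalizedFactors_iff
      (by rwa [Ne, Ideal.span_singleton_eq_bot])]
    exact ⟨hP, (Ideal.span_singleton_le_iff_mem P).mpr haP⟩
  have h1 := hy P hPs
  have hle : P ^ 2 ≤ P := Ideal.pow_le_self two_ne_zero
  constructor
  · have := P.add_mem (hle h1) (hx1 ⟨P, hPs⟩)
    rwa [sub_add_cancel] at this
  · intro h2
    apply hx2 ⟨P, hPs⟩
    have := (P ^ 2).sub_mem h2 h1
    rwa [sub_sub_cancel] at this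

lemma exists_uniformizer (N : IntermediateField ℚ Qb) [NumberField N] (r : Qb) (hr : r ∈ N)
    (hr2 : r ^ 2 = 2) : ∃ ϖ ∈ N, IsIntegral ℤ ϖ ∧
      ∀ V : ValuationSubring Qb, V.valuation (2 : Qb) < 1 → OddAt N V ϖ := by
  obtain ⟨y, hy⟩ := exists_uniformizer_ideal (𝓞 N) 2 (by norm_num)
  have hyint : IsIntegral ℤ ((y : N) : Qb) := (y.isIntegral_coe).map (algebraMap N Qb).toIntAlgHom
  refine ⟨((y : N) : Qb), (y : N).2, hyint, fun V h2 => ?_⟩
  have hint : ∀ x : 𝓞 N, V.valuation ((x : N) : Qb) ≤ 1 := by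
    intro x
    rw [ValuationSubring.valuation_le_one_iff]
    have h1 : IsIntegral ℤ ((x : N) : Qb) := (x.isIntegral_coe).map (algebraMap N Qb).toIntAlgHom
    have h3 : IsIntegral V ((x : N) : Qb) := h1.tower_top
    obtain ⟨z, hz⟩ := IsIntegrallyClosed.isIntegral_iff.mp h3
    rw [← hz]
    exact z.2
  -- the prime ideal
  let P : Ideal (𝓞 N) :=
    { carrier := {x | V.valuation ((x : N) : Qb) < 1}
      add_mem' := fun {a b} ha hb => by
        show V.valuation (((a + b : 𝓞 N) : N) : Qb) < 1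
        push_cast
        exact Valuation.map_add_lt _ ha hb
      zero_mem' := by
        show V.valuation (((0 : 𝓞 N) : N) : Qb) < 1
        simp
      smul_mem' := fun c {x} hx => by
        show V.valuation (((c * x : 𝓞 N) : N) : Qb) < 1
        push_cast
        rw [map_mul]
        calc _ ≤ 1 * V.valuation ((x : N) : Qb) := by gcongr; exact hint c
          _ < 1 := by rw [one_mul]; exact hx }
  have hPmem : ∀ x : 𝓞 N, x ∈ P ↔ V.valuation ((x : N) : Qb) < 1 := fun x => Iff.rfl
  have hPp : P.IsPrime := by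
    constructor
    · rw [Ideal.ne_top_iff_one, hPmem]
      simp
    · intro a b hab
      rw [hPmem] at hab ⊢
      rw [hPmem]
      by_contra hcon
      push Not at hcon
      have h3 := hcon.1
      have h4 := hcon.2
      push_cast at hab
      rw [map_mul] at hab
      have : 1 ≤ V.valuation ((a : N) : Qb) * V.valuation ((b : N) : Qb) := one_le_mul h3 h4
      exact absurd hab (not_lt.mpr this)
  have h2P : (2 : 𝓞 N) ∈ P := by
    rw [hPmem]
    push_cast
    exact h2
  obtain ⟨hy1, hy2⟩ := hy P hPp h2P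
  have hPbot : P ≠ ⊥ := by
    intro h
    rw [h, Ideal.mem_bot] at h2P
    norm_num at h2P
  let v : HeightOneSpectrum (𝓞 N) := ⟨P, hPp, hPbot⟩
  -- comparison of the two valuations
  have hlt : ∀ z : N, v.valuation N z < 1 → V.valuation (z : Qb) < 1 := by
    intro z hz
    obtain ⟨n, d, hnd⟩ := v.exists_primeCompl_mul_eq_of_integer z hz.le
    have hd : (d : 𝓞 N) ∉ P := d.2
    have hd1 : V.valuation (((d : 𝓞 N) : N) : Qb) = 1 := by
      rw [hPmem, not_lt] at hd
      exact le_antisymm (hint _) hd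
    have hvd : v.valuation N (algebraMap (𝓞 N) N d) = 1 := by
      rw [HeightOneSpectrum.valuation_eq_one_iff_notMem]
      exact hd
    have hn : n ∈ P := by
      have h3 : v.valuation N (algebraMap (𝓞 N) N n) < 1 := by
        rw [← hnd, map_mul, hvd, mul_one]
        exact hz
      exact (v.valuation_lt_one_iff_mem n).mp h3
    have e : (z : Qb) * (((d : 𝓞 N) : N) : Qb) = ((n : N) : Qb) :=
      congrArg (fun w : N => (w : Qb)) hnd
    have e2 : V.valuation (z : Qb) = V.valuation ((n : N) : Qb) := by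
      rw [← e, map_mul, hd1, mul_one]
    rw [e2]
    exact hn
  have hle : ∀ z : N, v.valuation N z ≤ 1 → V.valuation (z : Qb) ≤ 1 := by
    intro z hz
    by_contra hcon
    rw [not_le] at hcon
    rcases lt_or_eq_of_le hz with h | h
    · exact absurd (hlt z h) (not_lt.mpr hcon.le)
    · obtain ⟨n, d, hnd⟩ := v.exists_primeCompl_mul_eq_of_integer z hz
      have hd : (d : 𝓞 N) ∉ P := d.2
      have hd1 : V.valuation (((d : 𝓞 N) : N) : Qb) = 1 := by
        rw [hPmem, not_lt] at hd
        exact le_antisymm (hint _) hd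
      have e : (z : Qb) * (((d : 𝓞 N) : N) : Qb) = ((n : N) : Qb) :=
        congrArg (fun w : N => (w : Qb)) hnd
      have e2 : V.valuation (z : Qb) = V.valuation ((n : N) : Qb) := by
        rw [← e, map_mul, hd1, mul_one]
      rw [e2] at hcon
      exact absurd (hint n) (not_le.mpr hcon)
  have hvy : v.valuation N (y : N) = WithZero.exp (-1 : ℤ) := by
    have hy0 : y ≠ 0 := by
      rintro rfl
      exact hy2 (zero_mem _)
    have h3 : v.intValuation y ≤ WithZero.exp (-(1 : ℕ) : ℤ) := by
      rw [v.intValuation_le_pow_iff_mem, pow_one]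
      exact hy1
    have h4 : ¬ v.intValuation y ≤ WithZero.exp (-(2 : ℕ) : ℤ) := by
      rw [v.intValuation_le_pow_iff_mem]
      exact hy2
    have h5 : v.intValuation y ≠ 0 := v.intValuation_ne_zero y hy0
    have h6 : v.valuation N (y : N) = v.intValuation y := v.valuation_of_algebraMap y
    rw [h6]
    obtain ⟨k, hk⟩ : ∃ k : ℤ, v.intValuation y = WithZero.exp k :=
      ⟨WithZero.log (v.intValuation y), (WithZero.exp_log h5).symm⟩
    rw [hk] at h3 h4 ⊢
    rw [WithZero.exp_le_exp] at h3 h4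
    congr 1
    push_cast at h3 h4
    omega
  have hy0 : (y : N) ≠ 0 := by
    intro h
    rw [h, map_zero] at hvy
    exact (WithZero.exp_ne_zero).symm hvy
  refine ⟨?_, (hPmem y).mp hy1, ?_⟩
  · -- compare with the square root of two
    have hr1 : V.valuation r < 1 := by
      by_contra hcon
      rw [not_lt] at hcon
      have : 1 ≤ V.valuation (2 : Qb) := by
        rw [← hr2, map_pow]; exact one_le_pow₀ hcon
      exact absurd h2 (not_lt.mpr this)
    have hrN : v.valuation N (⟨r, hr⟩ : N) < 1 := by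
      by_contra hcon
      rw [not_lt] at hcon
      have hr0 : (⟨r, hr⟩ : N) ≠ 0 := by
        intro h
        rw [h, map_zero] at hcon
        exact absurd zero_lt_one (not_lt.mpr hcon)
      have h3 : v.valuation N (⟨r, hr⟩ : N)⁻¹ ≤ 1 := by
        rw [map_inv₀]
        exact inv_le_one_of_one_le₀ hcon
      have h4 := hle _ h3
      have h5 : (((⟨r, hr⟩ : N)⁻¹ : N) : Qb) = r⁻¹ := rfl
      rw [h5, map_inv₀] at h4
      have hr0' : 0 < V.valuation r := zero_lt_iff.mpr ((Valuation.ne_zero_iff _).mpr fun h =>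
        hr0 (Subtype.ext h))
      have := (inv_le_one₀ hr0').mp h4
      exact absurd hr1 (not_lt.mpr this)
    have h3 : v.valuation N ((⟨r, hr⟩ : N) / (y : N)) ≤ 1 := by
      rw [map_div₀, hvy]
      rw [div_le_one₀ (WithZero.exp_pos)]
      by_cases h0 : v.valuation N (⟨r, hr⟩ : N) = 0
      · rw [h0]; exact zero_le
      · rw [← WithZero.exp_log h0] at hrN ⊢
        rw [WithZero.exp_le_exp]
        rw [← WithZero.exp_zero, WithZero.exp_lt_exp] at hrN
        omega
    have h4 := hle _ h3
    have h5 : (((⟨r, hr⟩ : N) / (y : N) : N) : Qb) = r / ((y : N) : Qb) := rfl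
    have hypos : 0 < V.valuation ((y : N) : Qb) := zero_lt_iff.mpr ((Valuation.ne_zero_iff _).mpr
      fun h => hy0 (Subtype.ext h))
    rw [h5, map_div₀, div_le_one₀ hypos] at h4
    have hrpos : 0 < V.valuation r := by
      rw [zero_lt_iff]
      intro h
      have h6 : r = 0 := (Valuation.zero_iff _).mp h
      rw [h6] at hr2
      norm_num at hr2
    calc V.valuation (2 : Qb) = V.valuation r * V.valuation r := by rw [← hr2, map_pow, sq]
      _ < V.valuation r * 1 := mul_lt_mul_of_pos_left hr1 hrpos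
      _ ≤ V.valuation ((y : N) : Qb) := by rw [mul_one]; exact h4
  · intro γ hγ hcon
    set z : N := (⟨γ, hγ⟩ : N) ^ 2 / (y : N) with hz
    have hVz : V.valuation (z : Qb) = 1 := by
      have e : (z : Qb) = γ ^ 2 / ((y : N) : Qb) := rfl
      rw [e, map_div₀, map_pow, hcon]
      exact div_self ((Valuation.ne_zero_iff _).mpr fun h => hy0 (Subtype.ext h))
    have hz0 : z ≠ 0 := by
      intro h
      rw [h] at hVz
      simp at hVz
    have hvz : v.valuation N z ≠ 1 := by
      intro h
      rw [hz, map_div₀, map_pow, hvy, div_eq_one_iff_eq (WithZero.exp_ne_zero)] at h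
      have h0 : v.valuation N (⟨γ, hγ⟩ : N) ≠ 0 := by
        intro h0
        rw [h0, zero_pow two_ne_zero] at h
        exact (WithZero.exp_ne_zero).symm h
      rw [← WithZero.exp_log h0, ← WithZero.exp_nsmul, WithZero.exp_inj, nsmul_eq_mul] at h
      push_cast at h
      omega
    rcases lt_or_gt_of_ne hvz with h | h
    · exact absurd (hlt z h) (not_lt.mpr hVz.ge)
    · have h3 : v.valuation N z⁻¹ < 1 := by
        rw [map_inv₀]
        exact inv_lt_one_of_one_lt₀ h
      have h4 := hlt _ h3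
      have h5 : ((z⁻¹ : N) : Qb) = (z : Qb)⁻¹ := rfl
      rw [h5, map_inv₀, hVz, inv_one] at h4
      exact lt_irrefl _ h4

/-- transport of the oddness to conjugates -/
lemma OddAt.conj (N : IntermediateField ℚ Qb) (hN : ∀ σ : Qb ≃ₐ[ℚ] Qb, ∀ x ∈ N, σ x ∈ N) (ϖ : Qb)
    (h : ∀ V : ValuationSubring Qb, V.valuation (2 : Qb) < 1 → OddAt N V ϖ) (σ : Qb ≃ₐ[ℚ] Qb)
    (V : ValuationSubring Qb) (h2 : V.valuation (2 : Qb) < 1) : OddAt N V (σ ϖ) := by
  set W : ValuationSubring Qb := V.comap (σ : Qb →+* Qb) with hW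
  have hle : ∀ x y : Qb, W.valuation x ≤ W.valuation y ↔ V.valuation (σ x) ≤ V.valuation (σ y) := by
    intro x y
    rw [ValuationSubring.valuation_le_iff, ValuationSubring.valuation_le_iff]
    constructor
    · rintro ⟨a, ha⟩
      exact ⟨⟨σ a, a.2⟩, by rw [← ha, map_mul]⟩
    · rintro ⟨a, ha⟩
      refine ⟨⟨σ.symm a, ?_⟩, ?_⟩
      · show σ (σ.symm a) ∈ V
        rw [AlgEquiv.apply_symm_apply]
        exact a.2
      · apply σ.injective
        rw [map_mul]
        show σ (σ.symm a) * σ y = σ x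
        rw [AlgEquiv.apply_symm_apply, ha]
  have hlt : ∀ x y : Qb, W.valuation x < W.valuation y ↔ V.valuation (σ x) < V.valuation (σ y) := by
    intro x y
    rw [← not_le, ← not_le, hle]
  have hW2 : W.valuation (2 : Qb) < 1 := by
    rw [← map_one W.valuation, hlt, map_one, map_one, map_ofNat]
    exact h2
  obtain ⟨a1, a2, a3⟩ := h W hW2
  refine ⟨?_, ?_, ?_⟩
  · rw [hlt, map_ofNat] at a1
    exact a1
  · rw [← map_one W.valuation, hlt, map_one, map_one] at a2
    exact a2
  · intro γ hγ hcon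
    apply a3 (σ.symm γ) (hN σ.symm γ hγ)
    rw [← map_pow]
    apply le_antisymm
    · rw [hle, map_pow, AlgEquiv.apply_symm_apply, map_pow, hcon]
    · rw [hle, map_pow, AlgEquiv.apply_symm_apply, map_pow, hcon]

end Pool.Agent.H58B
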