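import Mathlib
import Pool.Agent.H58B.Uni

set_option autoImplicit false

/-!
# Approximation of the roots
-/

namespace Pool.Agent.H58B

open IntermediateField Polynomial Module
open Pool.Agent.H58P (Qb ht qb_isIntegral alg_isIntegral exists_den)

/-- powers of two are small at all places over two -/
lemma exists_pow_le (ε : Qb) (hε : ε ≠ 0) : ∃ m : ℕ, ∀ V : ValuationSubring Qb,
    V.valuation (2 : Qb) < 1 → V.valuation (2 : Qb) ^ m ≤ V.valuation ε := by
  obtain ⟨d, hd0, hd⟩ := exists_den ε⁻¹
  obtain ⟨m, k, hk, hdk⟩ := Nat.exists_eq_two_pow_mul_odd hd0.ne'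
  refine ⟨m, fun V h2 => ?_⟩
  have h1 : V.valuation ((d : Qb) * ε⁻¹) ≤ 1 := by
    rw [ValuationSubring.valuation_le_one_iff]
    have h3 : IsIntegral V ((d : Qb) * ε⁻¹) := hd.tower_top
    obtain ⟨z, hz⟩ := IsIntegrallyClosed.isIntegral_iff.mp h3
    rw [← hz]
    exact z.2
  have hk1 : V.valuation (k : Qb) = 1 := by
    obtain ⟨l, hl⟩ := hk
    rw [hl]
    push_cast
    have h4 : V.valuation ((2 : Qb) * (l : Qb)) < 1 := by
      rw [map_mul]
      have h5 : V.valuation (l : Qb) ≤ 1 := by
        rw [ValuationSubring.valuation_le_one_iff]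
        exact natCast_mem V l
      calc _ ≤ V.valuation (2 : Qb) * 1 := by gcongr
        _ < 1 := by rw [mul_one]; exact h2
    rw [Valuation.map_add_eq_of_lt_right _ (by rw [map_one]; exact h4), map_one]
  rw [hdk] at h1
  push_cast at h1
  rw [map_mul, map_mul, map_pow, hk1, mul_one, map_inv₀] at h1
  have hε' : 0 < V.valuation ε := zero_lt_iff.mpr ((Valuation.ne_zero_iff _).mpr hε)
  rw [← div_eq_mul_inv, div_le_one₀ hε'] at h1
  exact h1

section

variable (V : ValuationSubring Qb) (g : ℤ[X])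

lemma aeval_mem (x : Qb) (hx : x ∈ V) : aeval x g ∈ V := by
  have := aeval_algHom_apply (V.subtype.toIntAlgHom) (⟨x, hx⟩ : V) g
  have h2 : aeval x g = ((aeval (⟨x, hx⟩ : V) g : V) : Qb) := this
  rw [h2]
  exact Subtype.property _

lemma taylor (x y : Qb) (hx : x ∈ V) (hy : y ∈ V) : ∃ k ∈ V,
    aeval y g = aeval x g + aeval x (derivative g) * (y - x) + k * (y - x) ^ 2 := by
  obtain ⟨k, hk⟩ := (g.map (algebraMap ℤ V)).binomExpansion (⟨x, hx⟩ : V) (⟨y, hy⟩ - ⟨x, hx⟩)
  refine ⟨(k : Qb), k.2, ?_⟩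
  rw [add_sub_cancel, derivative_map, eval_map_algebraMap, eval_map_algebraMap,
    eval_map_algebraMap] at hk
  have e : ∀ (z : V) (f : ℤ[X]), ((aeval z f : V) : Qb) = aeval (z : Qb) f := fun z f =>
    (aeval_algHom_apply (V.subtype.toIntAlgHom) z f).symm
  have h1 := congrArg (fun z : V => (z : Qb)) hk
  push_cast at h1
  rw [e, e, e] at h1
  exact h1

lemma diff (x y : Qb) (hx : x ∈ V) (hy : y ∈ V) : ∃ k ∈ V,
    aeval y g - aeval x g = k * (y - x) := by
  obtain ⟨k, hk⟩ := sub_dvd_eval_sub (⟨y, hy⟩ : V) (⟨x, hx⟩ : V) (g.map (algebraMap ℤ V))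
  refine ⟨(k : Qb), k.2, ?_⟩
  rw [eval_map_algebraMap, eval_map_algebraMap] at hk
  have e : ∀ (z : V) (f : ℤ[X]), ((aeval z f : V) : Qb) = aeval (z : Qb) f := fun z f =>
    (aeval_algHom_apply (V.subtype.toIntAlgHom) z f).symm
  have h1 := congrArg (fun z : V => (z : Qb)) hk
  push_cast at h1
  rw [e, e] at h1
  rw [h1, mul_comm]

lemma mem_V_of_close {x y : Qb} (hx : x ∈ V) (h : V.valuation (x - y) ≤ 1) : y ∈ V := by
  rw [ValuationSubring.valuation_le_one_iff] at h
  have := sub_mem hx h
  rwa [sub_sub_cancel] at this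

/-- iteration of Newton -/
lemma newton (h2 : V.valuation (2 : Qb) < 1) (N : IntermediateField ℚ Qb) (b α : Qb)
    (hb : b ∈ V) (hα : α ∈ N) (hαV : α ∈ V) (C : ℕ)
    (hC : V.valuation (2 : Qb) ^ C ≤ V.valuation (aeval α (derivative g)))
    (hclose : V.valuation (b - α) ≤ V.valuation (2 : Qb) ^ (C + 1)) (hroot : aeval b g = 0)
    (k : ℕ) : ∃ β ∈ N, V.valuation (b - β) ≤ V.valuation (2 : Qb) ^ (C + 1 + k) := by
  have h20 : 0 < V.valuation (2 : Qb) := zero_lt_iff.mpr ((Valuation.ne_zero_iff _).mpr (by norm_num))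
  induction k with
  | zero => exact ⟨α, hα, hclose⟩
  | succ k ih =>
    obtain ⟨β, hβN, hβ⟩ := ih
    have hpow : ∀ n : ℕ, V.valuation (2 : Qb) ^ n ≤ 1 := fun n => pow_le_one' h2.le n
    have hβV : β ∈ V := mem_V_of_close V hb (hβ.trans (hpow _))
    obtain ⟨K, hK, hdiff⟩ := diff V (derivative g) α β hαV hβV
    have hβα : V.valuation (β - α) ≤ V.valuation (2 : Qb) ^ (C + 1) := by
      have e : β - α = (b - α) - (b - β) := by ring
      rw [e]
      exact Valuation.map_sub_le _ hclose (hβ.trans (pow_le_pow_right_of_le_one' h2.le (by omega)))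
    have hsmall : V.valuation (aeval β (derivative g) - aeval α (derivative g)) <
        V.valuation (aeval α (derivative g)) := by
      rw [hdiff, map_mul]
      calc _ ≤ 1 * V.valuation (2 : Qb) ^ (C + 1) := by
            gcongr
            exact (ValuationSubring.valuation_le_one_iff V K).mpr hK
        _ < V.valuation (2 : Qb) ^ C := by
            rw [one_mul, pow_succ]
            calc _ < V.valuation (2 : Qb) ^ C * 1 := mul_lt_mul_of_pos_left h2 (pow_pos h20 C)
              _ = _ := mul_one _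
        _ ≤ _ := hC
    have hder : V.valuation (aeval β (derivative g)) = V.valuation (aeval α (derivative g)) := by
      have e : aeval β (derivative g) = aeval α (derivative g) +
        (aeval β (derivative g) - aeval α (derivative g)) := by ring
      rw [e]
      exact Valuation.map_add_eq_of_lt_left _ hsmall
    have hder0 : aeval β (derivative g) ≠ 0 := by
      intro h
      rw [h, map_zero] at hder
      rw [← hder] at hC
      exact absurd (pow_pos h20 C) (not_lt.mpr hC)
    obtain ⟨R, hR, htay⟩ := taylor V g β b hβV hb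
    rw [hroot] at htay
    refine ⟨β - aeval β g / aeval β (derivative g), ?_, ?_⟩
    · apply sub_mem hβN
      apply div_mem
      · have : aeval β g = ((aeval (⟨β, hβN⟩ : N) g : N) : Qb) :=
          aeval_algHom_apply (N.val.toRingHom.toIntAlgHom) (⟨β, hβN⟩ : N) g
        rw [this]
        exact Subtype.property _
      · have : aeval β (derivative g) = ((aeval (⟨β, hβN⟩ : N) (derivative g) : N) : Qb) :=
          aeval_algHom_apply (N.val.toRingHom.toIntAlgHom) (⟨β, hβN⟩ : N) (derivative g)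
        rw [this]
        exact Subtype.property _
    · have e : b - (β - aeval β g / aeval β (derivative g)) =
          -(R * (b - β) ^ 2) / aeval β (derivative g) := by
        field_simp
        linear_combination -htay
      have hRv : V.valuation R ≤ 1 := (ValuationSubring.valuation_le_one_iff V R).mpr hR
      have hd0 : 0 < V.valuation (aeval β (derivative g)) :=
        zero_lt_iff.mpr ((Valuation.ne_zero_iff _).mpr hder0)
      rw [e, map_div₀, Valuation.map_neg, map_mul, map_pow, div_le_iff₀ hd0, hder]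
      calc V.valuation R * V.valuation (b - β) ^ 2
          ≤ 1 * (V.valuation (2 : Qb) ^ (C + 1 + k)) ^ 2 := by gcongr
        _ = V.valuation (2 : Qb) ^ (2 * (C + 1 + k)) := by
            rw [one_mul, ← pow_mul, mul_comm]
        _ ≤ V.valuation (2 : Qb) ^ (C + 1 + (k + 1) + C) :=
            pow_le_pow_right_of_le_one' h2.le (by omega)
        _ = V.valuation (2 : Qb) ^ (C + 1 + (k + 1)) * V.valuation (2 : Qb) ^ C := pow_add _ _ _
        _ ≤ _ := by gcongr

/-- the value group does not grow -/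
lemma immediate (h2 : V.valuation (2 : Qb) < 1) (N : IntermediateField ℚ Qb) (b : Qb)
    (hb : b ∈ V)
    (happ : ∀ k : ℕ, ∃ β ∈ N, V.valuation (b - β) ≤ V.valuation (2 : Qb) ^ k) (γ : Qb)
    (hγ : γ ∈ N ⊔ IntermediateField.adjoin ℚ {b}) (hγ0 : γ ≠ 0) :
    ∃ δ ∈ N, V.valuation δ = V.valuation γ := by
  classical
  have h20 : 0 < V.valuation (2 : Qb) := zero_lt_iff.mpr ((Valuation.ne_zero_iff _).mpr (by norm_num))
  rw [← mem_adjoin_iff] at hγ
  have halg : IsAlgebraic N b := (alg_isIntegral N b).isAlgebraic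
  have h1 : γ ∈ (IntermediateField.adjoin N {b}).toSubalgebra := hγ
  rw [adjoin_simple_toSubalgebra_of_isAlgebraic halg, Algebra.adjoin_singleton_eq_range_aeval] at h1
  obtain ⟨P, hP⟩ := h1
  have hP' : aeval b P = γ := hP
  have hm : ∀ i : ℕ, ∃ m : ℕ, V.valuation ((P.coeff i : N) : Qb) * V.valuation (2 : Qb) ^ m <
      V.valuation γ := by
    intro i
    by_cases hc : ((P.coeff i : N) : Qb) = 0
    · refine ⟨0, ?_⟩
      rw [hc, map_zero, zero_mul]
      exact zero_lt_iff.mpr ((Valuation.ne_zero_iff _).mpr hγ0)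
    · obtain ⟨m, hm⟩ := exists_pow_le (γ / ((P.coeff i : N) : Qb)) (div_ne_zero hγ0 hc)
      have h3 := hm V h2
      have hc' : 0 < V.valuation ((P.coeff i : N) : Qb) :=
        zero_lt_iff.mpr ((Valuation.ne_zero_iff _).mpr hc)
      rw [map_div₀, le_div_iff₀ hc'] at h3
      refine ⟨m + 1, ?_⟩
      calc V.valuation ((P.coeff i : N) : Qb) * V.valuation (2 : Qb) ^ (m + 1)
          = (V.valuation (2 : Qb) ^ m * V.valuation ((P.coeff i : N) : Qb)) * V.valuation 2 := by
            rw [pow_succ]; ac_rfl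
        _ < (V.valuation (2 : Qb) ^ m * V.valuation ((P.coeff i : N) : Qb)) * 1 :=
            mul_lt_mul_of_pos_left h2 (mul_pos (pow_pos h20 m) hc')
        _ ≤ V.valuation γ := by rw [mul_one]; exact h3
  choose m hm using hm
  set k := ∑ i ∈ Finset.range (P.natDegree + 1), m i with hk
  obtain ⟨β, hβN, hβ⟩ := happ k
  have hβV : β ∈ V := mem_V_of_close V hb (hβ.trans (pow_le_one' h2.le _))
  have hsum : γ - aeval β P = ∑ i ∈ Finset.range (P.natDegree + 1),
      ((P.coeff i : N) : Qb) * (b ^ i - β ^ i) := by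
    rw [← hP', aeval_eq_sum_range, aeval_eq_sum_range, ← Finset.sum_sub_distrib]
    apply Finset.sum_congr rfl
    intro i _
    rw [Algebra.smul_def, Algebra.smul_def, mul_sub]
    rfl
  have hlt : V.valuation (γ - aeval β P) < V.valuation γ := by
    rw [hsum]
    apply Valuation.map_sum_lt _ ((Valuation.ne_zero_iff _).mpr hγ0)
    intro i hi
    obtain ⟨c, hc⟩ := sub_dvd_pow_sub_pow (⟨b, hb⟩ : V) (⟨β, hβV⟩ : V) i
    have hc' : b ^ i - β ^ i = (b - β) * (c : Qb) := congrArg (fun z : V => (z : Qb)) hc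
    rw [map_mul, hc', map_mul]
    have hcv : V.valuation (c : Qb) ≤ 1 := (ValuationSubring.valuation_le_one_iff V _).mpr c.2
    have hmi : m i ≤ k := Finset.single_le_sum (f := m) (fun _ _ => Nat.zero_le _) hi
    calc V.valuation ((P.coeff i : N) : Qb) * (V.valuation (b - β) * V.valuation (c : Qb))
        ≤ V.valuation ((P.coeff i : N) : Qb) * (V.valuation (2 : Qb) ^ (m i) * 1) := by
          gcongr
          exact hβ.trans (pow_le_pow_right_of_le_one' h2.le hmi)
      _ = V.valuation ((P.coeff i : N) : Qb) * V.valuation (2 : Qb) ^ (m i) := by rw [mul_one]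
      _ < V.valuation γ := hm i
  refine ⟨aeval β P, ?_, ?_⟩
  · have : aeval β P = ((aeval (⟨β, hβN⟩ : N) P : N) : Qb) :=
      aeval_algHom_apply (Algebra.ofId N Qb) (⟨β, hβN⟩ : N) P
    rw [this]
    exact Subtype.property _
  · have e : aeval β P = γ - (γ - aeval β P) := by ring
    rw [e]
    exact Valuation.map_sub_eq_of_lt_left _ hlt

end

end Pool.Agent.H58B
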