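import Mathlib
import Pool.Agent.H58B.Newt

set_option autoImplicit false

/-!
# The base points of the towers
-/

namespace Pool.Agent.H58B

open IntermediateField Polynomial Module NumberField
open Pool.Agent.H58P (Qb ht qb_isIntegral alg_isIntegral exists_den squarefree_span)

lemma isIntegral_mem (V : ValuationSubring Qb) (x : Qb) (hx : IsIntegral ℤ x) : x ∈ V := by
  have h3 : IsIntegral V x := hx.tower_top
  obtain ⟨z, hz⟩ := IsIntegrallyClosed.isIntegral_iff.mp h3
  rw [← hz]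
  exact z.2

lemma prod_val {Γ : Type*} [LinearOrderedCommGroupWithZero Γ] (w : Valuation Qb Γ) (ρ : Γ) (b : Qb)
    (s : Multiset Qb) (h : ∀ a ∈ s, ρ ≤ w (b - a)) :
    ρ ^ Multiset.card s ≤ w ((s.map fun a => b - a).prod) := by
  induction s using Multiset.induction with
  | empty => simp
  | cons a s ih =>
    rw [Multiset.card_cons, Multiset.map_cons, Multiset.prod_cons, map_mul, pow_succ']
    exact mul_le_mul' (h a (Multiset.mem_cons_self a s))
      (ih fun a ha => h a (Multiset.mem_cons_of_mem ha))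

/-- Eisenstein polynomials over a number field -/
lemma eisenstein (M : IntermediateField ℚ Qb) [NumberField M] (l : ℕ) (hl : l.Prime)
    (hd : ¬ (l : ℤ) ∣ discr M) (m : ℕ) (hm : 0 < m) (c : ℤ) (H : ℤ[X]) (hH : H.degree < m) :
    Irreducible ((X ^ m + C (l : ℤ) + C (c * (l : ℤ) ^ 2) * H).map (algebraMap ℤ M)) := by
  set G : ℤ[X] := X ^ m + C (l : ℤ) + C (c * (l : ℤ) ^ 2) * H with hG
  have hlow : (C (l : ℤ) + C (c * (l : ℤ) ^ 2) * H).degree < m := by
    refine (degree_add_le _ _).trans_lt (max_lt ?_ ?_)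
    · exact degree_C_le.trans_lt (by exact_mod_cast hm)
    · refine (degree_mul_le _ _).trans_lt ?_
      calc (C (c * (l : ℤ) ^ 2)).degree + H.degree ≤ 0 + H.degree := by gcongr; exact degree_C_le
        _ < m := by rw [zero_add]; exact hH
  have hmon : G.Monic := by
    rw [hG, add_assoc]
    exact monic_X_pow_add hlow
  have hdeg : G.degree = m := by
    rw [hG, add_assoc, degree_add_eq_left_of_degree_lt (by rwa [degree_X_pow]), degree_X_pow]
  have hmonO : (G.map (algebraMap ℤ (𝓞 M))).Monic := hmon.map _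
  have hdegO : (G.map (algebraMap ℤ (𝓞 M))).degree = m := by rw [hmon.degree_map, hdeg]
  have e : G.map (algebraMap ℤ M) = (G.map (algebraMap ℤ (𝓞 M))).map (algebraMap (𝓞 M) M) := by
    rw [Polynomial.map_map, ← IsScalarTower.algebraMap_eq]
  rw [e, ← hmonO.irreducible_iff_irreducible_map_fraction_map]
  have hl0 : (l : 𝓞 M) ≠ 0 := by exact_mod_cast hl.ne_zero
  have hsq := squarefree_span l hl hd
  have hne : Ideal.span {(l : 𝓞 M)} ≠ ⊤ := by
    intro h
    rw [Ideal.span_singleton_eq_top] at h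
    have h1 : IsIntegral ℤ ((l : ℚ)⁻¹) := by
      obtain ⟨u, hu⟩ := h
      have h2 : (((u⁻¹ : (𝓞 M)ˣ) : 𝓞 M) : M) = (l : M)⁻¹ := by
        have h3 : (l : 𝓞 M) * ((u⁻¹ : (𝓞 M)ˣ) : 𝓞 M) = 1 := by rw [← hu, u.mul_inv]
        have h4 := congrArg (fun z : 𝓞 M => (z : M)) h3
        push_cast at h4
        exact eq_inv_of_mul_eq_one_right h4
      have h5 : IsIntegral ℤ ((l : M)⁻¹) := h2 ▸ (((u⁻¹ : (𝓞 M)ˣ) : 𝓞 M)).isIntegral_coe
      rw [← isIntegral_algebraMap_iff (algebraMap ℚ M).injective]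
      simpa using h5
    obtain ⟨y, hy⟩ := IsIntegrallyClosed.isIntegral_iff.mp h1
    have hlq : (l : ℚ) ≠ 0 := by exact_mod_cast hl.ne_zero
    have h6 : (y : ℚ) * l = 1 := by
      have : (y : ℚ) = (l : ℚ)⁻¹ := hy
      rw [this, inv_mul_cancel₀ hlq]
    have h7 : y * (l : ℤ) = 1 := by exact_mod_cast h6
    have h8 : IsUnit (l : ℤ) := IsUnit.of_mul_eq_one y (by rw [mul_comm]; exact h7)
    have h9 := Int.isUnit_iff.mp h8
    have := hl.two_le
    omega
  obtain ⟨P, hPmax, hP⟩ := Ideal.exists_le_maximal _ hne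
  have hlP : (l : 𝓞 M) ∈ P := hP (Ideal.mem_span_singleton_self _)
  have hlP2 : (l : 𝓞 M) ∉ P ^ 2 := by
    intro h
    have h1 : P * P ∣ Ideal.span {(l : 𝓞 M)} := by
      rw [← sq, Ideal.dvd_span_singleton]
      exact h
    have h2 := hsq P h1
    rw [Ideal.isUnit_iff] at h2
    exact hPmax.ne_top h2
  have hcoeff : ∀ i : ℕ, i < m → (G.map (algebraMap ℤ (𝓞 M))).coeff i =
      (if i = 0 then (l : 𝓞 M) else 0) + (c : 𝓞 M) * (l : 𝓞 M) ^ 2 * ((H.coeff i : ℤ) : 𝓞 M) := by
    intro i hi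
    rw [coeff_map, hG, coeff_add, coeff_add, coeff_X_pow, if_neg (by omega), zero_add, coeff_C,
      coeff_C_mul]
    split_ifs <;> simp
  apply irreducible_of_eisenstein_criterion hPmax.isPrime
  · rw [hmonO.leadingCoeff]
    exact fun h => hPmax.ne_top ((Ideal.eq_top_iff_one P).mpr h)
  · intro i hi
    rw [hdegO] at hi
    have hi' : i < m := by exact_mod_cast hi
    rw [hcoeff i hi']
    apply P.add_mem
    · split_ifs
      · exact hlP
      · exact P.zero_mem
    · rw [sq, mul_assoc, mul_assoc]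
      exact P.mul_mem_left _ (P.mul_mem_right _ hlP)
  · rw [hdegO]
    exact_mod_cast hm
  · rw [hcoeff 0 hm, if_pos rfl]
    intro h
    apply hlP2
    have h1 : (c : 𝓞 M) * (l : 𝓞 M) ^ 2 * ((H.coeff 0 : ℤ) : 𝓞 M) ∈ P ^ 2 :=
      Ideal.mul_mem_right _ _ (Ideal.mul_mem_left _ _ (Ideal.pow_mem_pow hlP 2))
    have := (P ^ 2).sub_mem h h1
    rwa [add_sub_cancel_right] at this
  · exact hmonO.isPrimitive

theorem exists_b (N : IntermediateField ℚ Qb) [NumberField N]
    (hN : ∀ σ : Qb ≃ₐ[ℚ] Qb, ∀ x ∈ N, σ x ∈ N) (r : Qb) (hr : r ∈ N) (hr2 : r ^ 2 = 2) :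
    ∃ n : ℕ, 0 < n ∧ ∀ (M : IntermediateField ℚ Qb) (_ : NumberField M), ∃ b : Qb,
      (∀ V : ValuationSubring Qb, V.valuation (2 : Qb) < 1 →
        OddAt (N ⊔ IntermediateField.adjoin ℚ {b}) V b) ∧
      ∃ G : ℤ[X], G.Monic ∧ G.natDegree = 2 * n ∧ Irreducible (G.map (algebraMap ℤ M)) ∧
        ∀ t : Qb, t ^ 2 = b + 2 → aeval t G = 0 := by
  classical
  obtain ⟨ϖ, hϖN, hϖint, hϖ⟩ := exists_uniformizer N r hr hr2
  set g₀ := minpoly ℤ ϖ with hg₀
  have hmon₀ : g₀.Monic := minpoly.monic hϖint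
  have hmp : g₀.map (algebraMap ℤ ℚ) = minpoly ℚ ϖ :=
    (minpoly.isIntegrallyClosed_eq_field_fractions' ℚ hϖint).symm
  set n := g₀.natDegree with hn
  have hn0 : 0 < n := minpoly.natDegree_pos hϖint
  have hnormal : Normal ℚ Qb := by
    have : IsAlgClosure ℚ Qb := ⟨inferInstance, AlgebraicClosure.isAlgebraic ℚ⟩
    exact IsAlgClosure.normal ℚ Qb
  -- roots
  set R := (g₀.map (algebraMap ℤ Qb)).roots with hR
  have hmonQ : (g₀.map (algebraMap ℤ Qb)).Monic := hmon₀.map _
  have hroot : ∀ α ∈ R, aeval α g₀ = 0 := by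
    intro α hα
    have := (mem_roots hmonQ.ne_zero).mp hα
    rwa [IsRoot.def, eval_map_algebraMap] at this
  have hconj : ∀ α ∈ R, ∃ σ : Qb ≃ₐ[ℚ] Qb, σ ϖ = α := by
    intro α hα
    have h1 : aeval α (minpoly ℚ ϖ) = 0 := by
      rw [← hmp, aeval_map_algebraMap]
      exact hroot α hα
    have h2 : minpoly ℚ α = minpoly ℚ ϖ :=
      (minpoly.eq_of_irreducible_of_monic (minpoly.irreducible (qb_isIntegral ϖ)) h1
        (minpoly.monic (qb_isIntegral ϖ))).symm
    obtain ⟨σ, hσ⟩ := (Normal.minpoly_eq_iff_mem_orbit Qb).mp h2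
    exact ⟨σ, hσ⟩
  have hRint : ∀ α ∈ R, IsIntegral ℤ α := fun α hα => ⟨g₀, hmon₀, by
    rw [← aeval_def]; exact hroot α hα⟩
  have hcard : Multiset.card R = n := by
    rw [hR, ← (IsAlgClosed.splits _).natDegree_eq_card_roots, hmon₀.natDegree_map]
  have hder0 : ∀ α ∈ R, aeval α (derivative g₀) ≠ 0 := by
    intro α hα h0
    have hsep : (minpoly ℚ ϖ).Separable := (minpoly.irreducible (qb_isIntegral ϖ)).separable
    have h1 : aeval α (minpoly ℚ ϖ) = 0 := by
      rw [← hmp, aeval_map_algebraMap]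
      exact hroot α hα
    have h2 := hsep.aeval_derivative_ne_zero h1
    apply h2
    rw [← hmp, derivative_map, aeval_map_algebraMap]
    exact h0
  have hm : ∀ α : Qb, ∃ m : ℕ, α ∈ R → ∀ V : ValuationSubring Qb, V.valuation (2 : Qb) < 1 →
      V.valuation (2 : Qb) ^ m ≤ V.valuation (aeval α (derivative g₀)) := by
    intro α
    by_cases hα : α ∈ R
    · obtain ⟨m, hm⟩ := exists_pow_le _ (hder0 α hα)
      exact ⟨m, fun _ => hm⟩
    · exact ⟨0, fun h => absurd h hα⟩
  choose m hm using hm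
  set C₁ := ∑ α ∈ R.toFinset, m α with hC₁
  have hC : ∀ α ∈ R, ∀ V : ValuationSubring Qb, V.valuation (2 : Qb) < 1 →
      V.valuation (2 : Qb) ^ C₁ ≤ V.valuation (aeval α (derivative g₀)) := by
    intro α hα V h2
    refine le_trans ?_ (hm α hα V h2)
    apply pow_le_pow_right_of_le_one' h2.le
    exact Finset.single_le_sum (f := m) (fun _ _ => Nat.zero_le _) (Multiset.mem_toFinset.mpr hα)
  refine ⟨n, hn0, fun M hM => ?_⟩
  -- the prime
  obtain ⟨l, hl1, hl⟩ := Nat.exists_infinite_primes (max 3 ((discr M).natAbs + 1))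
  have hl3 : 3 ≤ l := (le_max_left _ _).trans hl1
  have hld : (discr M).natAbs + 1 ≤ l := (le_max_right _ _).trans hl1
  have hndvd : ¬ (l : ℤ) ∣ discr M := by
    intro h
    have h1 : l ∣ (discr M).natAbs := by rwa [← Int.natCast_dvd]
    have h2 : (discr M).natAbs ≠ 0 := Int.natAbs_ne_zero.mpr (discr_ne_zero M)
    have := Nat.le_of_dvd (Nat.pos_of_ne_zero h2) h1
    omega
  set s := (C₁ + 1) * n + 1 with hs
  have hcop : IsCoprime ((l : ℤ) ^ 2) ((2 : ℤ) ^ s) := by
    apply IsCoprime.pow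
    have : IsCoprime ((l : ℕ) : ℤ) ((2 : ℕ) : ℤ) :=
      Nat.isCoprime_iff_coprime.mpr ((Nat.coprime_primes hl Nat.prime_two).mpr (by omega))
    exact_mod_cast this
  obtain ⟨a, e, hae⟩ := hcop
  set g₁ : ℤ[X] := (X + C 2) ^ n + C (l : ℤ) with hg₁
  have hmonX : ((X + C 2 : ℤ[X]) ^ n).Monic := (monic_X_add_C 2).pow n
  have hdegX : ((X + C 2 : ℤ[X]) ^ n).degree = n := by
    rw [degree_pow, degree_X_add_C]; simp
  have hCl : (C (l : ℤ)).degree < ((X + C 2 : ℤ[X]) ^ n).degree := by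
    rw [hdegX]
    exact degree_C_le.trans_lt (by exact_mod_cast hn0)
  have hdeg₁ : g₁.degree = n := by
    rw [hg₁, degree_add_eq_left_of_degree_lt hCl, hdegX]
  have hmon₁ : g₁.Monic := hmonX.add_of_left hCl
  have hdeg₀ : g₀.degree = n := degree_eq_natDegree hmon₀.ne_zero
  have hdiff : (g₀ - g₁).degree < n := by
    have := degree_sub_lt (hdeg₀.trans hdeg₁.symm) hmon₀.ne_zero
      (hmon₀.leadingCoeff.trans hmon₁.leadingCoeff.symm)
    rwa [hdeg₀] at this
  set g : ℤ[X] := g₁ + C (a * (l : ℤ) ^ 2) * (g₀ - g₁) with hg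
  have hgalt : g = g₀ + C (e * (2 : ℤ) ^ s) * (g₁ - g₀) := by
    have h1 : (C (a * (l : ℤ) ^ 2) : ℤ[X]) = 1 - C (e * (2 : ℤ) ^ s) := by
      rw [← C_1, ← C_sub]
      congr 1
      linarith
    rw [hg, h1]
    ring
  have hmulC : ∀ (z : ℤ) (f : ℤ[X]), (C z * f).degree ≤ f.degree := by
    intro z f
    calc (C z * f).degree ≤ (C z).degree + f.degree := degree_mul_le _ _
      _ ≤ 0 + f.degree := by gcongr; exact degree_C_le
      _ = f.degree := zero_add _
  have hmong : g.Monic := by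
    apply hmon₁.add_of_left
    rw [hdeg₁]
    exact (hmulC _ _).trans_lt hdiff
  have hdegg : g.degree = n := by
    rw [hg, degree_add_eq_left_of_degree_lt (by rw [hdeg₁]; exact (hmulC _ _).trans_lt hdiff), hdeg₁]
  -- the root
  obtain ⟨b, hb⟩ : ∃ b : Qb, aeval b g = 0 := by
    have h1 : (g.map (algebraMap ℤ Qb)).degree ≠ 0 := by
      rw [hmong.degree_map, hdegg]
      exact_mod_cast hn0.ne'
    obtain ⟨b, hb⟩ := IsAlgClosed.exists_root _ h1
    refine ⟨b, ?_⟩
    rwa [IsRoot.def, eval_map_algebraMap] at hb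
  have hbint : IsIntegral ℤ b := ⟨g, hmong, by rw [← aeval_def]; exact hb⟩
  refine ⟨b, ?_, ?_⟩
  · intro V h2
    have h20 : 0 < V.valuation (2 : Qb) :=
      zero_lt_iff.mpr ((Valuation.ne_zero_iff _).mpr (by norm_num))
    have hbV : b ∈ V := isIntegral_mem V b hbint
    have hsm : ∀ (x : Qb), x ∈ V → ∀ f : ℤ[X],
        V.valuation (((e * (2 : ℤ) ^ s : ℤ) : Qb) * aeval x f) ≤ V.valuation (2 : Qb) ^ s := by
      intro x hx f
      have h3 : V.valuation ((e : ℤ) : Qb) ≤ 1 :=
        (ValuationSubring.valuation_le_one_iff V _).mpr (intCast_mem V e)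
      have h4 : V.valuation (aeval x f) ≤ 1 :=
        (ValuationSubring.valuation_le_one_iff V _).mpr (aeval_mem V f x hx)
      push_cast
      rw [map_mul, map_mul, map_pow]
      calc V.valuation ((e : ℤ) : Qb) * V.valuation 2 ^ s * V.valuation (aeval x f)
          ≤ 1 * V.valuation 2 ^ s * 1 := by gcongr
        _ = _ := by rw [one_mul, mul_one]
    -- a close root
    have hg₀b : V.valuation (aeval b g₀) ≤ V.valuation (2 : Qb) ^ s := by
      have h3 : aeval b g₀ = -(((e * (2 : ℤ) ^ s : ℤ) : Qb) * aeval b (g₁ - g₀)) := by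
        have h4 := hb
        rw [hgalt, map_add, map_mul, aeval_C] at h4
        rw [eq_neg_iff_add_eq_zero]
        exact h4
      rw [h3, Valuation.map_neg]
      exact hsm b hbV _
    obtain ⟨α, hαR, hαb⟩ : ∃ α ∈ R, V.valuation (b - α) ≤ V.valuation (2 : Qb) ^ (C₁ + 1) := by
      by_contra hcon
      push Not at hcon
      have h3 := prod_val V.valuation (V.valuation (2 : Qb) ^ (C₁ + 1)) b R
        (fun α hα => (hcon α hα).le)
      have h4 : (R.map fun a => b - a).prod = aeval b g₀ := by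
        rw [← eval_map_algebraMap, (IsAlgClosed.splits _).eval_eq_prod_roots_of_monic hmonQ]
      rw [h4, hcard, ← pow_mul] at h3
      have h5 : V.valuation (2 : Qb) ^ s < V.valuation (2 : Qb) ^ ((C₁ + 1) * n) := by
        rw [hs, pow_succ]
        calc _ < V.valuation (2 : Qb) ^ ((C₁ + 1) * n) * 1 :=
              mul_lt_mul_of_pos_left h2 (pow_pos h20 _)
          _ = _ := mul_one _
      exact absurd (h3.trans hg₀b) (not_le.mpr h5)
    obtain ⟨σ, hσ⟩ := hconj α hαR
    obtain ⟨o1, o2, o3⟩ : OddAt N V α := hσ ▸ OddAt.conj N hN ϖ hϖ σ V h2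
    have hαN : α ∈ N := hσ ▸ hN σ ϖ hϖN
    have hαV : α ∈ V := isIntegral_mem V α (hRint α hαR)
    have hderg : V.valuation (2 : Qb) ^ C₁ ≤ V.valuation (aeval α (derivative g)) := by
      have h3 : aeval α (derivative g) = aeval α (derivative g₀) +
          ((e * (2 : ℤ) ^ s : ℤ) : Qb) * aeval α (derivative (g₁ - g₀)) := by
        rw [hgalt, derivative_add, derivative_C_mul, map_add, map_mul, aeval_C]
        rfl
      have h4 : V.valuation (2 : Qb) ^ s < V.valuation (2 : Qb) ^ C₁ := by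
        have h5 : C₁ + 1 ≤ s := by
          rw [hs]
          nlinarith
        calc V.valuation (2 : Qb) ^ s ≤ V.valuation (2 : Qb) ^ (C₁ + 1) :=
              pow_le_pow_right_of_le_one' h2.le h5
          _ = V.valuation (2 : Qb) ^ C₁ * V.valuation 2 := pow_succ _ _
          _ < V.valuation (2 : Qb) ^ C₁ * 1 := mul_lt_mul_of_pos_left h2 (pow_pos h20 _)
          _ = _ := mul_one _
      have h5 := hC α hαR V h2
      rw [h3, Valuation.map_add_eq_of_lt_left]
      · exact h5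
      · exact (hsm α hαV _).trans_lt (h4.trans_le h5)
    have hVbα : V.valuation b = V.valuation α := by
      have h3 : V.valuation (b - α) < V.valuation α := by
        refine hαb.trans_lt (lt_of_le_of_lt ?_ o1)
        calc V.valuation (2 : Qb) ^ (C₁ + 1) ≤ V.valuation (2 : Qb) ^ 1 :=
              pow_le_pow_right_of_le_one' h2.le (by omega)
          _ = _ := pow_one _
      have h4 : b = α + (b - α) := by ring
      rw [h4]
      exact Valuation.map_add_eq_of_lt_left _ h3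
    refine ⟨by rw [hVbα]; exact o1, by rw [hVbα]; exact o2, ?_⟩
    intro γ hγ hcon
    have hγ0 : γ ≠ 0 := by
      rintro rfl
      rw [map_zero, zero_pow two_ne_zero, hVbα] at hcon
      rw [← hcon] at o1
      exact absurd o1 (not_lt.mpr zero_le)
    obtain ⟨δ, hδN, hδ⟩ := immediate V h2 N b hbV (fun k => by
      obtain ⟨β, hβN, hβ⟩ := newton V g h2 N b α hbV hαN hαV C₁ hderg hαb hb k
      exact ⟨β, hβN, hβ.trans (pow_le_pow_right_of_le_one' h2.le (by omega))⟩) γ hγ hγ0
    apply o3 δ hδN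
    rw [hδ, hcon, hVbα]
  · have hcompdeg : ((g₀ - g₁).comp (X ^ 2 - C 2)).degree < ((2 * n : ℕ) : WithBot ℕ) := by
      by_cases h0 : (g₀ - g₁).comp (X ^ 2 - C 2) = 0
      · rw [h0, degree_zero]
        exact WithBot.bot_lt_coe _
      · rw [degree_eq_natDegree h0, natDegree_comp]
        have h1 : (X ^ 2 - C 2 : ℤ[X]).natDegree = 2 := natDegree_X_pow_sub_C
        have h2 : (g₀ - g₁).natDegree < n := by
          have h3 : g₀ - g₁ ≠ 0 := by
            rintro h4
            rw [h4, zero_comp] at h0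
            exact h0 rfl
          rw [degree_eq_natDegree h3] at hdiff
          exact_mod_cast hdiff
        rw [h1]
        have : (g₀ - g₁).natDegree * 2 < 2 * n := by omega
        exact_mod_cast this
    have hGeq : g.comp (X ^ 2 - C 2) = X ^ (2 * n) + C (l : ℤ) +
        C (a * (l : ℤ) ^ 2) * ((g₀ - g₁).comp (X ^ 2 - C 2)) := by
      rw [hg, add_comp, mul_comp, C_comp, hg₁, add_comp, pow_comp, add_comp, X_comp, C_comp, C_comp,
        sub_add_cancel, ← pow_mul]
    refine ⟨g.comp (X ^ 2 - C 2), ?_, ?_, ?_, ?_⟩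
    · apply hmong.comp (monic_X_pow_sub_C _ two_ne_zero)
      rw [natDegree_X_pow_sub_C]
      exact two_ne_zero
    · rw [natDegree_comp, natDegree_X_pow_sub_C, natDegree_eq_of_degree_eq_some hdegg, mul_comm]
    · rw [hGeq]
      exact eisenstein M l hl hndvd (2 * n) (by omega) a _ hcompdeg
    · intro t ht
      rw [aeval_comp, map_sub, map_pow, aeval_X, aeval_C, ht]
      have : (b + 2 - (algebraMap ℤ Qb) 2 : Qb) = b := by simp
      rw [this, hb]

end Pool.Agent.H58B
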