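import Mathlib
import Pool.Agent.H58B.Pol

set_option autoImplicit false

/-!
# The inductive stage
-/

namespace Pool.Agent.H58B

open IntermediateField Polynomial Module NumberField
open Pool.Agent.Helper259.AbsHt
open Pool.Agent.H58P (Qb ht qb_isIntegral alg_isIntegral exists_den)
open Pool.Agent.H58W (northcott finrank_adjoin_le)

/-- a normal number field containing a given one and the square root of two -/
lemma exists_normal (N₀ : IntermediateField ℚ Qb) [FiniteDimensional ℚ N₀] :
    ∃ N : IntermediateField ℚ Qb, FiniteDimensional ℚ N ∧ N₀ ≤ N ∧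
      (∀ σ : Qb ≃ₐ[ℚ] Qb, ∀ x ∈ N, σ x ∈ N) ∧ ∃ r ∈ N, r ^ 2 = 2 := by
  obtain ⟨r, hr⟩ := IsAlgClosed.exists_pow_nat_eq (2 : Qb) (show 0 < 2 by norm_num)
  have h1 : FiniteDimensional ℚ (IntermediateField.adjoin ℚ {r}) :=
    IntermediateField.adjoin.finiteDimensional (qb_isIntegral r)
  set K := N₀ ⊔ IntermediateField.adjoin ℚ {r} with hK
  have hKfd : FiniteDimensional ℚ K := inferInstance
  have hnormal : Normal ℚ Qb := by
    have : IsAlgClosure ℚ Qb := ⟨inferInstance, AlgebraicClosure.isAlgebraic ℚ⟩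
    exact IsAlgClosure.normal ℚ Qb
  have hle : K ≤ normalClosure ℚ K Qb := K.le_normalClosure
  refine ⟨normalClosure ℚ K Qb, inferInstance, le_sup_left.trans hle, ?_, r,
    hle ((le_sup_right : IntermediateField.adjoin ℚ {r} ≤ K)
      (IntermediateField.mem_adjoin_simple_self ℚ r)), hr⟩
  have h2 := @normalClosure.normal ℚ K Qb _ _ _ _ _ _
  have h3 := IntermediateField.normal_iff_forall_map_le'.mp h2
  intro σ x hx
  exact h3 σ ⟨x, hx, rfl⟩

/-- degrees over an intermediate field -/
lemma finrank_sup (M : IntermediateField ℚ Qb) [FiniteDimensional ℚ M] (t : Qb) :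
    finrank ℚ (M ⊔ IntermediateField.adjoin ℚ {t} : IntermediateField ℚ Qb) =
      finrank ℚ M * (minpoly M t).natDegree := by
  rw [← IntermediateField.adjoin.finrank (alg_isIntegral M t)]
  rw [Module.finrank_mul_finrank ℚ M (IntermediateField.adjoin M {t})]
  rw [← IntermediateField.restrictScalars_adjoin_eq_sup]
  rfl

lemma irreducible_mono (M M' : IntermediateField ℚ Qb) (h : M ≤ M') (G : ℤ[X]) (hG : G.Monic)
    (hirr : Irreducible (G.map (algebraMap ℤ M'))) : Irreducible (G.map (algebraMap ℤ M)) := by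
  let _ : Algebra M M' := (IntermediateField.inclusion h).toAlgebra
  have e : (G.map (algebraMap ℤ M)).map (algebraMap M M') = G.map (algebraMap ℤ M') := by
    rw [Polynomial.map_map]
    congr 1
  rw [← e] at hirr
  exact (hG.map _).irreducible_of_irreducible_map _ _ hirr

lemma degree_of_irr (M : IntermediateField ℚ Qb) (G : ℤ[X]) (hG : G.Monic)
    (hirr : Irreducible (G.map (algebraMap ℤ M))) (t : Qb) (ht : aeval t G = 0) :
    (minpoly M t).natDegree = G.natDegree := by
  have h1 : aeval t (G.map (algebraMap ℤ M)) = 0 := by rw [aeval_map_algebraMap, ht]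
  rw [← minpoly.eq_of_irreducible_of_monic hirr h1 (hG.map _), hG.natDegree_map]

/-- the bottom layer -/
lemma bottom (M MS : IntermediateField ℚ Qb) [FiniteDimensional ℚ M] [FiniteDimensional ℚ MS]
    (hM : M ≤ MS) (G : ℤ[X]) (hG : G.Monic) (hirr : Irreducible (G.map (algebraMap ℤ MS))) (t : Qb)
    (htG : aeval t G = 0) (y : Qb) (hy : y ∈ M ⊔ IntermediateField.adjoin ℚ {t}) (hyS : y ∈ MS) :
    y ∈ M := by
  have hyfd : FiniteDimensional ℚ (IntermediateField.adjoin ℚ {y}) :=
    IntermediateField.adjoin.finiteDimensional (qb_isIntegral y)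
  set M' := M ⊔ IntermediateField.adjoin ℚ {y} with hM'
  have hM'fd : FiniteDimensional ℚ M' := inferInstance
  have hM'S : M' ≤ MS := sup_le hM (IntermediateField.adjoin_simple_le_iff.mpr hyS)
  have hsup : M' ⊔ IntermediateField.adjoin ℚ {t} = M ⊔ IntermediateField.adjoin ℚ {t} := by
    apply le_antisymm
    · refine sup_le (sup_le le_sup_left ?_) le_sup_right
      exact IntermediateField.adjoin_simple_le_iff.mpr hy
    · exact sup_le_sup_right le_sup_left _
  have h1 := finrank_sup M t
  have h2 := finrank_sup M' t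
  rw [degree_of_irr M G hG (irreducible_mono M MS hM G hG hirr) t htG] at h1
  rw [degree_of_irr M' G hG (irreducible_mono M' MS hM'S G hG hirr) t htG, hsup, h1] at h2
  have hG0 : 0 < G.natDegree := by
    have := hirr.natDegree_pos
    rwa [hG.natDegree_map] at this
  have h3 : finrank ℚ M = finrank ℚ M' := Nat.eq_of_mul_eq_mul_right hG0 h2
  have h4 : M = M' := IntermediateField.eq_of_le_of_finrank_eq le_sup_left h3
  rw [h4]
  exact (le_sup_right : IntermediateField.adjoin ℚ {y} ≤ M')
    (IntermediateField.mem_adjoin_simple_self ℚ y)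

/-- upper bound for the height of `x + 1/x` -/
lemma ht_add_inv : ∃ C : ℝ, ∀ x : Qb, x ≠ 0 → ht (x + x⁻¹) ≤ 2 * ht x + C := by
  let q : Fin 2 → MvPolynomial (Fin 2) Qbar := ![MvPolynomial.X 0 * MvPolynomial.X 1,
    MvPolynomial.X 0 ^ 2 + MvPolynomial.X 1 ^ 2]
  have hq : ∀ i, (q i).IsHomogeneous 2 := by
    intro i
    fin_cases i
    · exact (MvPolynomial.isHomogeneous_X _ _).mul (MvPolynomial.isHomogeneous_X _ _)
    · have h0 := (MvPolynomial.isHomogeneous_X Qbar (0 : Fin 2)).pow 2
      have h1 := (MvPolynomial.isHomogeneous_X Qbar (1 : Fin 2)).pow 2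
      exact h0.add h1
  obtain ⟨C, hC⟩ := absLogHeight_eval 2 q hq
  refine ⟨C, fun x hx => ?_⟩
  have h1 := hC ![1, x]
  have e : (fun i => MvPolynomial.eval ![1, x] (q i)) = x • ![1, x + x⁻¹] := by
    funext i
    fin_cases i
    · simp [q]
    · simp [q]
      field_simp
      ring
  rw [e, absLogHeight_smul _ hx] at h1
  push_cast at h1
  show absLogHeight ![1, x + x⁻¹] ≤ 2 * absLogHeight ![1, x] + C
  linarith

set_option maxHeartbeats 4000000 in
/-- the stage -/
theorem stage (N₀ : IntermediateField ℚ Qb) [FiniteDimensional ℚ N₀] (ε : ℝ) (hε : 0 < ε) :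
    ∃ x : Qb, x ≠ 0 ∧ (∀ n : ℕ, 0 < n → x ^ n ≠ 1) ∧ ht x < ε ∧
      ∀ M : IntermediateField ℚ Qb, M ≤ N₀ →
        ∀ y ∈ M ⊔ IntermediateField.adjoin ℚ {x + x⁻¹}, y ∉ M → Real.log 2 / 8 ≤ ht y := by
  obtain ⟨N, hNfd, hN₀N, hNst, r, hrN, hr2⟩ := exists_normal N₀
  have hNF : NumberField N :=
    { to_charZero := inferInstance
      to_finiteDimensional := hNfd }
  obtain ⟨n, hn0, hb⟩ := exists_b N hNst r hrN hr2
  obtain ⟨Cc, hCc⟩ := ht_add_inv
  set B := max (Real.log 2) Cc with hB
  set S : Set Qb := {α : Qb | (minpoly ℚ α).natDegree ≤ finrank ℚ N * (2 * n) ∧ ht α ≤ B} with hS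
  have hSfin : S.Finite := northcott _ _
  have hSf : Finite S := hSfin
  have hSfd : FiniteDimensional ℚ (IntermediateField.adjoin ℚ S) :=
    IntermediateField.finiteDimensional_adjoin fun y _ => qb_isIntegral y
  set MS := N ⊔ IntermediateField.adjoin ℚ S with hMS
  have hMSfd : FiniteDimensional ℚ MS := inferInstance
  have hMSNF : NumberField MS :=
    { to_charZero := inferInstance
      to_finiteDimensional := hMSfd }
  obtain ⟨b, hodd, G, hGmon, hGdeg, hGirr, hGroot⟩ := hb MS hMSNF
  -- the square roots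
  have hlog : 0 < Real.log 2 := Real.log_pos (by norm_num)
  obtain ⟨x₀, hx₀⟩ : ∃ x₀ : Qb, x₀ ^ 2 - b * x₀ + 1 = 0 := by
    have h1 : (X ^ 2 + (C (-b) * X + C 1) : Qb[X]).degree ≠ 0 := by
      have : (C (-b) * X + C 1 : Qb[X]).degree < 2 := by
        refine (degree_linear_le).trans_lt ?_
        norm_num
      rw [degree_add_eq_left_of_degree_lt (by rw [degree_X_pow]; exact this), degree_X_pow]
      norm_num
    obtain ⟨x₀, hx₀⟩ := IsAlgClosed.exists_root _ h1
    refine ⟨x₀, ?_⟩
    rw [IsRoot.def] at hx₀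
    simp only [eval_add, eval_pow, eval_X, eval_mul, eval_C] at hx₀
    linear_combination hx₀
  have hx₀0 : x₀ ≠ 0 := by
    rintro rfl
    simp at hx₀
  have hb0 : x₀ + x₀⁻¹ = b := by
    field_simp
    linear_combination hx₀
  obtain ⟨sq, hsq⟩ : ∃ sq : Qb → Qb, ∀ z, sq z ^ 2 = z := by
    choose f hf using fun z : Qb => IsAlgClosed.exists_pow_nat_eq z (show 0 < 2 by norm_num)
    exact ⟨f, hf⟩
  let Xs : ℕ → Qb := fun i => sq^[i] x₀
  have hXs : ∀ i, Xs (i + 1) ^ 2 = Xs i := by
    intro i
    show (sq^[i + 1] x₀) ^ 2 = _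
    rw [Function.iterate_succ_apply', hsq]
  have hX0 : Xs 0 = x₀ := rfl
  have hXne : ∀ i, Xs i ≠ 0 := by
    intro i
    induction i with
    | zero => exact hx₀0
    | succ i ih =>
      intro h
      apply ih
      rw [← hXs, h, zero_pow two_ne_zero]
  let t : ℕ → Qb := fun i => Xs i + (Xs i)⁻¹
  have htt : ∀ i, t (i + 1) ^ 2 = t i + 2 := by
    intro i
    show (Xs (i + 1) + (Xs (i + 1))⁻¹) ^ 2 = Xs i + (Xs i)⁻¹ + 2
    have h1 := hXne (i + 1)
    rw [← hXs i]
    field_simp
    ring
  have ht0 : t 0 = b := hb0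
  have hpow : ∀ k, Xs k ^ 2 ^ k = x₀ := by
    intro k
    induction k with
    | zero => simp [hX0]
    | succ k ih => rw [pow_succ', pow_mul, hXs, ih]
  have htx : ∀ k, ht (Xs k) = ht x₀ / 2 ^ k := by
    intro k
    have h1 := ht_pow (Xs k) (2 ^ k)
    rw [hpow] at h1
    rw [h1]
    push_cast
    field_simp
  obtain ⟨k, hk⟩ := pow_unbounded_of_one_lt (ht x₀ / ε) (show (1 : ℝ) < 2 by norm_num)
  have hxlt : ht (Xs (k + 1)) < ε := by
    rw [htx, div_lt_iff₀ (by positivity)]
    rw [div_lt_iff₀ hε] at hk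
    calc ht x₀ < 2 ^ k * ε := hk
      _ ≤ ε * 2 ^ (k + 1) := by
          rw [mul_comm, pow_succ]
          have : (0 : ℝ) < 2 ^ k := by positivity
          nlinarith
  have htG : aeval (t 1) G = 0 := hGroot (t 1) (by rw [htt 0, ht0])
  have ht1deg : (minpoly ℚ (t 1)).natDegree ≤ 2 * n := by
    have h1 : aeval (t 1) (G.map (algebraMap ℤ ℚ)) = 0 := by rw [aeval_map_algebraMap, htG]
    have h2 := natDegree_le_of_dvd (minpoly.dvd ℚ _ h1) (hGmon.map _).ne_zero
    rwa [hGmon.natDegree_map, hGdeg] at h2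
  have ht1S : t 1 ∉ MS := by
    intro h
    have h1 := degree_of_irr MS G hGmon hGirr (t 1) htG
    have h2 : (minpoly MS (t 1)).natDegree = 1 := by
      have := minpoly.eq_X_sub_C Qb (⟨t 1, h⟩ : MS)
      have e : (algebraMap MS Qb) (⟨t 1, h⟩ : MS) = t 1 := rfl
      rw [e] at this
      rw [this, natDegree_X_sub_C]
    omega
  refine ⟨Xs (k + 1), hXne _, ?_, hxlt, ?_⟩
  · -- not a root of unity
    intro m hm hroot
    apply ht1S
    have h1 : Xs 1 ^ m = 1 := by
      have h2 : ∀ i, Xs (1 + i) ^ 2 ^ i = Xs 1 := by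
        intro i
        induction i with
        | zero => simp
        | succ i ih =>
          rw [pow_succ', pow_mul]
          have : 1 + (i + 1) = (1 + i) + 1 := rfl
          rw [this, hXs, ih]
      rw [← h2 k, ← pow_mul, mul_comm, pow_mul]
      have : 1 + k = k + 1 := add_comm _ _
      rw [this, hroot, one_pow]
    have h2 : ht (Xs 1) = 0 := by
      have h3 := ht_pow (Xs 1) m
      have h4 := ht_pow (1 : Qb) 2
      rw [one_pow] at h4
      push_cast at h4
      rw [h1] at h3
      have h5 : ht (1 : Qb) = 0 := by linarith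
      rw [h5] at h3
      have hm' : (m : ℝ) ≠ 0 := by exact_mod_cast hm.ne'
      rcases mul_eq_zero.mp h3.symm with h | h
      · exact absurd h hm'
      · exact h
    have h3 : ht (t 1) ≤ Cc := by
      have := hCc (Xs 1) (hXne 1)
      rw [h2] at this
      linarith
    apply (le_sup_right : IntermediateField.adjoin ℚ S ≤ MS)
    apply IntermediateField.subset_adjoin
    refine ⟨ht1deg.trans ?_, h3.trans (le_max_right _ _)⟩
    exact Nat.le_mul_of_pos_left _ Module.finrank_pos
  · intro M hM y hy hyM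
    have hMN : M ≤ N := hM.trans hN₀N
    have hMfd : FiniteDimensional ℚ M := by
      have : FiniteDimensional ℚ N := hNfd
      exact Module.Finite.of_injective (IntermediateField.inclusion hMN).toLinearMap
        (IntermediateField.inclusion_injective hMN)
    have hy' : y ∈ Kf M t (k + 1) := hy
    by_cases hy1 : y ∈ Kf M t 1
    · -- bottom layer
      by_contra hcon
      rw [not_le] at hcon
      apply hyM
      apply bottom M MS (hMN.trans le_sup_left) G hGmon hGirr (t 1) htG y hy1
      apply (le_sup_right : IntermediateField.adjoin ℚ S ≤ MS)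
      apply IntermediateField.subset_adjoin
      refine ⟨?_, ?_⟩
      · have hyN : y ∈ N ⊔ IntermediateField.adjoin ℚ {t 1} := (sup_le_sup_right hMN _) hy1
        refine (finrank_adjoin_le N (t 1) y hyN).trans ?_
        exact Nat.mul_le_mul_left _ ht1deg
      · refine hcon.le.trans (le_trans ?_ (le_max_left _ _))
        linarith
    · classical
      have hex : ∃ i, y ∈ Kf M t i := ⟨_, hy'⟩
      set i := Nat.find hex with hi
      have hyi : y ∈ Kf M t i := Nat.find_spec hex
      have hmono := Kf_mono M t htt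
      have hi2 : 2 ≤ i := by
        by_contra hcon
        exact hy1 (hmono (by omega : i ≤ 1) hyi)
      obtain ⟨j, hj⟩ : ∃ j, i = j + 2 := ⟨i - 2, by omega⟩
      have hyj : y ∉ Kf M t (j + 1) := Nat.find_min hex (by omega)
      rw [hj] at hyi
      refine layer_height M t htt ?_ j y hyi hyj
      intro V h2
      obtain ⟨a1, a2, a3⟩ := hodd V h2
      refine ⟨by rw [ht0]; exact a1, by rw [ht0]; exact a2, ?_⟩
      intro γ hγ
      rw [ht0]
      apply a3
      have h3 : Kf M t 0 ≤ N ⊔ IntermediateField.adjoin ℚ {b} := by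
        rw [← ht0]
        exact sup_le_sup_right hMN _
      exact h3 hγ

end Pool.Agent.H58B
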