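import Mathlib
import Pool.Agent.H58B.Stage
import Pool.Agent.H58P.Tow

set_option autoImplicit false

/-!
# The tower, and heights in its finite extensions
-/

namespace Pool.Agent.H58B

open IntermediateField Polynomial Module NumberField
open Pool.Agent.Helper259.AbsHt
open Pool.Agent.H58P (Qb ht qb_isIntegral alg_isIntegral)
open Pool.Agent.H58W (northcott)

/-- the tower -/
theorem exists_tower (K₀ : IntermediateField ℚ Qb) (hK₀ : FiniteDimensional ℚ K₀) :
    ∃ (F N : ℕ → IntermediateField ℚ Qb) (x : ℕ → Qb),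
    F 0 = K₀ ∧ (∀ i, FiniteDimensional ℚ (F i)) ∧
    (∀ i, F (i + 1) = F i ⊔ IntermediateField.adjoin ℚ {x i + (x i)⁻¹}) ∧
    (∀ i, F i ≤ N i) ∧ Monotone N ∧ (∀ y, ∃ i, y ∈ N i) ∧
    ∀ i, x i ≠ 0 ∧ (∀ n : ℕ, 0 < n → (x i) ^ n ≠ 1) ∧ ht (x i) < 1 / ((i : ℝ) + 1) ∧
      ∀ M : IntermediateField ℚ Qb, M ≤ N i →
        ∀ y ∈ M ⊔ IntermediateField.adjoin ℚ {x i + (x i)⁻¹}, y ∉ M → Real.log 2 / 8 ≤ ht y := by
  have hc := Pool.Agent.H58P.countable_qb
  obtain ⟨e, he⟩ := exists_surjective_nat Qb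
  let N : ℕ → IntermediateField ℚ Qb := fun i => IntermediateField.adjoin ℚ (e '' Set.Iio i)
  have hNfd : ∀ i, FiniteDimensional ℚ (N i) := by
    intro i
    have : Finite (e '' Set.Iio i) := ((Set.finite_Iio i).image e)
    exact IntermediateField.finiteDimensional_adjoin fun y _ => qb_isIntegral y
  have hNmono : Monotone N := by
    intro i j hij
    apply IntermediateField.adjoin.mono
    exact Set.image_mono (Set.Iio_subset_Iio hij)
  let St : Type := {K : IntermediateField ℚ Qb // FiniteDimensional ℚ K}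
  have hd : ∀ (i : ℕ) (K : St), ∃ x : Qb, x ≠ 0 ∧ (∀ n : ℕ, 0 < n → x ^ n ≠ 1) ∧
      ht x < 1 / ((i : ℝ) + 1) ∧
      ∀ M : IntermediateField ℚ Qb, M ≤ K.1 ⊔ N i →
        ∀ y ∈ M ⊔ IntermediateField.adjoin ℚ {x + x⁻¹}, y ∉ M → Real.log 2 / 8 ≤ ht y := by
    rintro i ⟨K, hK⟩
    have := hNfd i
    exact stage (K ⊔ N i) (1 / ((i : ℝ) + 1)) (by positivity)
  choose d hd using hd
  let f : ℕ → St := fun i => Nat.rec (⟨K₀, hK₀⟩ : St)
    (fun i K => ⟨K.1 ⊔ IntermediateField.adjoin ℚ {d i K + (d i K)⁻¹}, by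
      have := K.2
      have : FiniteDimensional ℚ (IntermediateField.adjoin ℚ {d i K + (d i K)⁻¹}) :=
        IntermediateField.adjoin.finiteDimensional (qb_isIntegral _)
      infer_instance⟩) i
  have hmonoK : Monotone fun i => (f i).1 := monotone_nat_of_le_succ fun i => le_sup_left
  refine ⟨fun i => (f i).1, fun i => (f i).1 ⊔ N i, fun i => d i (f i), rfl,
    fun i => (f i).2, fun i => rfl, fun i => le_sup_left, ?_, ?_, fun i => hd i (f i)⟩
  · intro i j hij
    exact sup_le_sup (hmonoK hij) (hNmono hij)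
  · intro x
    obtain ⟨n, rfl⟩ := he x
    refine ⟨n + 1, (le_sup_right : N (n + 1) ≤ _) ?_⟩
    exact IntermediateField.subset_adjoin ℚ _ ⟨n, Set.mem_Iio.mpr (Nat.lt_succ_self n), rfl⟩

lemma degree_le (M : IntermediateField ℚ Qb) [FiniteDimensional ℚ M] (y : Qb) (hy : y ∈ M) :
    (minpoly ℚ y).natDegree ≤ finrank ℚ M := by
  have e : minpoly ℚ y = minpoly ℚ (⟨y, hy⟩ : M) := by
    rw [← minpoly.algebraMap_eq (algebraMap M Qb).injective]
    rfl
  rw [e]
  exact minpoly.natDegree_le _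

/-- number fields have the Bogomolov property -/
lemma bogomolov_nf (M : IntermediateField ℚ Qb) [FiniteDimensional ℚ M] :
    ∃ c : ℝ, 0 < c ∧ ∀ y ∈ M, (∀ n : ℕ, 0 < n → y ^ n ≠ 1) → y ≠ 0 → c ≤ ht y := by
  have hfin : {α : Qb | (minpoly ℚ α).natDegree ≤ finrank ℚ M ∧ ht α ≤ 1}.Finite := northcott _ _
  have hfin2 : (ht '' {α : Qb | (minpoly ℚ α).natDegree ≤ finrank ℚ M ∧ ht α ≤ 1} ∩
      {r | 0 < r}).Finite := (hfin.image _).inter_of_left _
  obtain ⟨c, hc, hcle⟩ : ∃ c : ℝ, 0 < c ∧ ∀ r ∈ (ht '' {α : Qb | (minpoly ℚ α).natDegree ≤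
      finrank ℚ M ∧ ht α ≤ 1} ∩ {r | 0 < r}), c ≤ r := by
    rcases (ht '' {α : Qb | (minpoly ℚ α).natDegree ≤ finrank ℚ M ∧ ht α ≤ 1} ∩
      {r | 0 < r}).eq_empty_or_nonempty with h | h
    · refine ⟨1, one_pos, fun r hr => ?_⟩
      rw [h] at hr
      exact absurd hr (Set.notMem_empty r)
    · obtain ⟨r, hr, hmin⟩ := hfin2.exists_minimal h
      refine ⟨r, hr.2, fun s hs => ?_⟩
      rcases le_total r s with h | h
      · exact h
      · exact hmin hs h
  refine ⟨min c 1, lt_min hc one_pos, fun y hy hnt hy0 => ?_⟩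
  have hpos : 0 < ht y := by
    rcases (absLogHeight_nonneg ![1, y]).lt_or_eq with h | h
    · exact h
    · exfalso
      have hinj : Function.Injective fun n : ℕ => y ^ n := by
        have key : ∀ a b : ℕ, a < b → y ^ a ≠ y ^ b := by
          intro a b hab heq
          apply hnt (b - a) (by omega)
          have h1 : y ^ b = y ^ a * y ^ (b - a) := by rw [← pow_add]; congr 1; omega
          rw [h1] at heq
          have h2 : y ^ a ≠ 0 := pow_ne_zero _ hy0
          have h3 : y ^ a * y ^ (b - a) = y ^ a * 1 := by rw [mul_one]; exact heq.symm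
          exact mul_left_cancel₀ h2 h3
        intro a b hab
        by_contra hne
        rcases Nat.lt_or_gt_of_ne hne with h | h
        · exact key a b h hab
        · exact key b a h hab.symm
      refine Set.infinite_range_of_injective hinj (hfin.subset ?_)
      rintro _ ⟨n, rfl⟩
      refine ⟨degree_le M _ (pow_mem hy n), ?_⟩
      show ht (y ^ n) ≤ 1
      have h0 : ht y = 0 := h.symm
      rw [ht_pow, h0, mul_zero]
      exact zero_le_one
  by_cases h1 : ht y ≤ 1
  · exact (min_le_left _ _).trans (hcle _ ⟨⟨y, ⟨degree_le M y hy, h1⟩, rfl⟩, hpos⟩)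
  · exact (min_le_right _ _).trans (not_le.mp h1).le

/-- **Main theorem.** -/
theorem main (K₀ : IntermediateField ℚ Qb) (hK₀ : FiniteDimensional ℚ K₀) :
    ∃ F : IntermediateField ℚ Qb, K₀ ≤ F ∧
      (∀ S : Set Qb, S.Finite → ∃ c : ℝ, 0 < c ∧ ∀ y ∈ F ⊔ IntermediateField.adjoin ℚ S,
        (∀ n : ℕ, 0 < n → y ^ n ≠ 1) → y ≠ 0 → c ≤ ht y) ∧
      ∀ ε : ℝ, 0 < ε → ∃ x : Qb, x ≠ 0 ∧ (∀ n : ℕ, 0 < n → x ^ n ≠ 1) ∧ ht x < ε ∧
        x + x⁻¹ ∈ F := by
  obtain ⟨F, N, x, hF0, hFfd, hFs, hFN, hNmono, hN, hx⟩ := exists_tower K₀ hK₀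
  have hmono : Monotone F := monotone_nat_of_le_succ fun i => by rw [hFs]; exact le_sup_left
  refine ⟨⨆ i, F i, hF0 ▸ le_iSup F 0, ?_, ?_⟩
  · intro S hS
    set A := IntermediateField.adjoin ℚ S with hA
    have hSf : Finite S := hS
    have hAfd : FiniteDimensional ℚ A :=
      IntermediateField.finiteDimensional_adjoin fun y _ => qb_isIntegral y
    -- all of `S` is in some `N j`
    obtain ⟨j₀, hj₀⟩ : ∃ j₀, A ≤ N j₀ := by
      choose g hg using hN
      obtain ⟨B, hB⟩ := (hS.image g).bddAbove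
      refine ⟨B, ?_⟩
      rw [hA, IntermediateField.adjoin_le_iff]
      intro s hs
      exact hNmono (hB ⟨s, hs, rfl⟩) (hg s)
    have hbase : FiniteDimensional ℚ (F j₀ ⊔ A : IntermediateField ℚ Qb) := by
      have := hFfd j₀
      infer_instance
    obtain ⟨c, hc, hcb⟩ := bogomolov_nf (F j₀ ⊔ A)
    have hlog : 0 < Real.log 2 := Real.log_pos (by norm_num)
    refine ⟨min c (Real.log 2 / 8), lt_min hc (by positivity), fun y hy hnt hy0 => ?_⟩
    have hy' : ∃ j, y ∈ F j ⊔ A := by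
      rw [iSup_sup] at hy
      have hdir : Directed (· ≤ ·) fun i => F i ⊔ A := by
        apply Monotone.directed_le
        intro i j hij
        exact sup_le_sup_right (hmono hij) _
      rw [← SetLike.mem_coe, IntermediateField.coe_iSup_of_directed hdir, Set.mem_iUnion] at hy
      exact hy
    obtain ⟨j, hj⟩ := hy'
    have key : ∀ k, y ∈ F (j₀ + k) ⊔ A → min c (Real.log 2 / 8) ≤ ht y := by
      intro k
      induction k with
      | zero =>
        intro h
        exact (min_le_left _ _).trans (hcb y h hnt hy0)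
      | succ k ih =>
        intro h
        by_cases hk : y ∈ F (j₀ + k) ⊔ A
        · exact ih hk
        · refine (min_le_right _ _).trans ?_
          obtain ⟨-, -, -, hlay⟩ := hx (j₀ + k)
          refine hlay (F (j₀ + k) ⊔ A) ?_ y ?_ hk
          · exact sup_le (hFN _) (hj₀.trans (hNmono (Nat.le_add_right _ _)))
          · rw [← add_assoc, hFs, sup_right_comm] at h
            exact h
    apply key j
    exact (sup_le_sup_right (hmono (Nat.le_add_left j j₀)) _) hj
  · intro ε hε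
    obtain ⟨i, hi⟩ := exists_nat_one_div_lt hε
    obtain ⟨h1, h2, h3, -⟩ := hx i
    refine ⟨x i, h1, h2, h3.trans hi, ?_⟩
    apply (le_iSup F (i + 1))
    rw [hFs]
    exact (le_sup_right : IntermediateField.adjoin ℚ {x i + (x i)⁻¹} ≤ _)
      (IntermediateField.mem_adjoin_simple_self ℚ _)

end Pool.Agent.H58B
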